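import Pool.Agent.Lib.MP_72e2e6_nt.Sm.Out

/-!
# MP_72e2e6_nt, `Sm`: tame factors exist
-/

namespace Pool.Agent.MP72T

open Polynomial

theorem exTam : S_Ex := by
  classical
  intro F _ a ha
  have hne : ∀ i j : Fin 3, i ≠ j → a i - a j ≠ 0 := fun i j h =>
    sub_ne_zero.2 fun e => h (ha e)
  set w : F[X] := (a 0 - a 1) * (a 0 - a 2) * (a 1 - a 2) with hw
  have hw0 : w ≠ 0 :=
    mul_ne_zero (mul_ne_zero (hne 0 1 (by decide)) (hne 0 2 (by decide))) (hne 1 2 (by decide))
  set g : F[X] := EuclideanDomain.gcd (a 0 - a 1) (a 0 - a 2) with hg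
  have hg0 : g ≠ 0 := by
    intro h
    exact hne 0 1 (by decide) (EuclideanDomain.gcd_eq_zero_iff.1 h).1
  set T : Finset F[X] := (UniqueFactorizationMonoid.normalizedFactors w).toFinset.filter
    fun P => Even (multiplicity P g) with hT
  have hTm : ∀ P ∈ T, P.Monic ∧ Irreducible P := by
    intro P hP
    rw [hT, Finset.mem_filter, Multiset.mem_toFinset] at hP
    have h1 := UniqueFactorizationMonoid.irreducible_of_normalized_factor P hP.1
    have h2 := UniqueFactorizationMonoid.normalize_normalized_factor P hP.1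
    exact ⟨by rw [← h2]; exact monic_normalize h1.ne_zero, h1⟩
  have hass : ∀ P Q : F[X], P.Monic → Q.Monic → Irreducible P → Irreducible Q → P ∣ Q → P = Q := by
    intro P Q h1 h2 h3 h4 h5
    exact eq_of_monic_of_associated h1 h2 (h3.associated_of_dvd h4 h5)
  set d : F[X] := ∏ P ∈ T, P with hd
  have hdm : d.Monic := monic_prod_of_monic _ _ fun P hP => (hTm P hP).1
  have hsq : Squarefree d := by
    apply Finset.squarefree_prod_of_pairwise_isCoprime
    · intro P hP Q hQ hPQ
      obtain ⟨h1, h2⟩ := hTm P hP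
      obtain ⟨h3, h4⟩ := hTm Q hQ
      exact ((h2.coprime_iff_not_dvd).2 fun h => hPQ (hass P Q h1 h3 h2 h4 h)).isRelPrime
    · intro P hP
      exact (hTm P hP).2.squarefree
  have hdv : ∀ P : F[X], P.Monic → Irreducible P → (P ∣ d ↔ P ∈ T) := by
    intro P h1 h2
    constructor
    · intro h
      obtain ⟨Q, hQ, hPQ⟩ := (h2.prime.dvd_finsetProd_iff _).1 h
      obtain ⟨h3, h4⟩ := hTm Q hQ
      rwa [hass P Q h1 h3 h2 h4 hPQ]
    · intro h
      exact Finset.dvd_prod_of_mem _ h
  refine ⟨d, hdm, hsq, ?_⟩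
  intro P₀ hP₀ hdvd i
  set P : F[X] := normalize P₀ with hP
  have hPa : Associated P₀ P := (normalize_associated P₀).symm
  have hPm : P.Monic := monic_normalize hP₀.ne_zero
  have hPi : Irreducible P := hPa.irreducible hP₀
  have hPw : P ∣ w := (hPa.dvd_iff_dvd_left).1 hdvd
  have hPf : P ∈ UniqueFactorizationMonoid.normalizedFactors w :=
    (UniqueFactorizationMonoid.mem_normalizedFactors_iff' hw0).2
      ⟨hPi, by rw [hP, normalize_idem], hPw⟩
  have hfin : ∀ x : F[X], x ≠ 0 → FiniteMultiplicity P x := fun x hx =>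
    FiniteMultiplicity.of_not_isUnit hPi.not_isUnit hx
  set k := multiplicity P g with hk
  have hkg : ¬ P ^ (k + 1) ∣ g := (hfin g hg0).not_pow_dvd_of_multiplicity_lt (Nat.lt_succ_self _)
  have hkd : P ^ k ∣ g := pow_multiplicity_dvd P g
  have h01 : P ^ k ∣ a 0 - a 1 := hkd.trans (EuclideanDomain.gcd_dvd_left _ _)
  have h02 : P ^ k ∣ a 0 - a 2 := hkd.trans (EuclideanDomain.gcd_dvd_right _ _)
  have hall : ∀ i j : Fin 3, P ^ k ∣ a i - a j := by
    have h0 : ∀ i : Fin 3, P ^ k ∣ a 0 - a i := by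
      intro i
      fin_cases i
      · simp
      · exact h01
      · exact h02
    intro i j
    have := dvd_sub (h0 j) (h0 i)
    rwa [show a 0 - a j - (a 0 - a i) = a i - a j by ring] at this
  have hex : ∃ j, j ≠ i ∧ ¬ P ^ (k + 1) ∣ a i - a j := by
    by_contra hcon
    push Not at hcon
    have h0 : ∀ j : Fin 3, P ^ (k + 1) ∣ a i - a j := by
      intro j
      by_cases h : j = i
      · rw [h, sub_self]; exact dvd_zero _
      · exact hcon j h
    refine hkg (EuclideanDomain.dvd_gcd ?_ ?_)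
    · have := dvd_sub (h0 1) (h0 0)
      rwa [show a i - a 1 - (a i - a 0) = a 0 - a 1 by ring] at this
    · have := dvd_sub (h0 2) (h0 0)
      rwa [show a i - a 2 - (a i - a 0) = a 0 - a 2 by ring] at this
  obtain ⟨j, hji, hj⟩ := hex
  refine ⟨j, hji, ?_⟩
  have hmul : multiplicity P (a i - a j) = k :=
    multiplicity_eq_of_dvd_of_not_dvd (hall i j) hj
  have hl : ∀ x : F[X], multiplicity P₀ x = multiplicity P x := fun x =>
    multiplicity_eq_of_associated_left hPa.symm
  rw [hl, hl, hmul]
  by_cases he : Even k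
  · have hPT : P ∈ T := by
      rw [hT, Finset.mem_filter, Multiset.mem_toFinset]
      exact ⟨hPf, he⟩
    have h1 : multiplicity P d = 1 := by
      apply multiplicity_eq_of_dvd_of_not_dvd
      · rw [pow_one]; exact (hdv P hPm hPi).2 hPT
      · intro h
        rw [one_add_one_eq_two, pow_two] at h
        exact hPi.not_isUnit (hsq P h)
    rw [h1]
    exact he.one_add
  · have hPT : P ∉ T := by
      rw [hT, Finset.mem_filter, Multiset.mem_toFinset]
      exact fun h => he h.2
    have h1 : multiplicity P d = 0 := by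
      apply multiplicity_eq_zero.2
      rwa [hdv P hPm hPi]
    rw [h1, zero_add]
    exact Nat.not_even_iff_odd.1 he

end Pool.Agent.MP72T
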