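import Pool.Agent.Lib.MP_72e2e6_nt.Sm.Out
import Pool.Agent.Lib.MP_72e2e6_nt.Sm.Ex
import Pool.Agent.Lib.MP_72e2e6_nt.Sm.Br.All
import Pool.Agent.Lib.MP_72e2e6_nt.Sm.C.All
import Pool.Agent.Lib.MP_72e2e6_nt.Sm.D.All
import Pool.Agent.Lib.MP_72e2e6_nt.Sm.P.AltE
import Pool.Agent.Lib.MP_72e2e6_nt.Sm.P.AltP
import Pool.Agent.Lib.MP_72e2e6_nt.Sm.P.EFa
import Pool.Agent.Lib.MP_72e2e6_nt.Sm.P.Evn
import Pool.Agent.Lib.MP_72e2e6_nt.Sm.P.Hlf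
import Pool.Agent.Lib.MP_72e2e6_nt.Sm.P.IvR
import Pool.Agent.Lib.MP_72e2e6_nt.Sm.P.Ivc
import Pool.Agent.Lib.MP_72e2e6_nt.Sm.P.Qbi
import Pool.Agent.Lib.MP_72e2e6_nt.Sm.P.Qc2
import Pool.Agent.Lib.MP_72e2e6_nt.Sm.P.Qch
import Pool.Agent.Lib.MP_72e2e6_nt.Sm.P.Qka
import Pool.Agent.Lib.MP_72e2e6_nt.Sm.P.Qlo
import Pool.Agent.Lib.MP_72e2e6_nt.Sm.P.Rad
import Pool.Agent.Lib.MP_72e2e6_nt.Sm.S.Dvo
import Pool.Agent.Lib.MP_72e2e6_nt.Sm.S.Exs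
import Pool.Agent.Lib.MP_72e2e6_nt.Sm.S.Gok
import Pool.Agent.Lib.MP_72e2e6_nt.Sm.S.Hdb
import Pool.Agent.Lib.MP_72e2e6_nt.Sm.S.Hgt
import Pool.Agent.Lib.MP_72e2e6_nt.Sm.S.Hpl
import Pool.Agent.Lib.MP_72e2e6_nt.Sm.S.Ine
import Pool.Agent.Lib.MP_72e2e6_nt.Sm.S.Inf
import Pool.Agent.Lib.MP_72e2e6_nt.Sm.S.Kum
import Pool.Agent.Lib.MP_72e2e6_nt.Sm.S.Ldc
import Pool.Agent.Lib.MP_72e2e6_nt.Sm.S.Main
import Pool.Agent.Lib.MP_72e2e6_nt.Sm.S.NoQ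
import Pool.Agent.Lib.MP_72e2e6_nt.Sm.S.Nrc
import Pool.Agent.Lib.MP_72e2e6_nt.Sm.S.Plt
import Pool.Agent.Lib.MP_72e2e6_nt.Sm.S.Sfn
import Pool.Agent.Lib.MP_72e2e6_nt.Sm.S.Sq1
import Pool.Agent.Lib.MP_72e2e6_nt.Sm.S.Tam
import Pool.Agent.Lib.MP_72e2e6_nt.Sm.S.Trm
import Pool.Agent.Lib.MP_72e2e6_nt.Sm.S.Trn
import Pool.Agent.Lib.MP_72e2e6_nt.Sm.S.Twt
import Pool.Agent.Lib.MP_72e2e6_nt.Sm.S.Typ
import Pool.Agent.Lib.MP_72e2e6_nt.Sm.S.Unr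
import Pool.Agent.Lib.MP_72e2e6_nt.Sm.F.AuxF
import Pool.Agent.Lib.MP_72e2e6_nt.Sm.F.CrvA
import Pool.Agent.Lib.MP_72e2e6_nt.Sm.F.CrvB
import Pool.Agent.Lib.MP_72e2e6_nt.Sm.F.Hns
import Pool.Agent.Lib.MP_72e2e6_nt.Sm.F.Ind
import Pool.Agent.Lib.MP_72e2e6_nt.Sm.F.Irc
import Pool.Agent.Lib.MP_72e2e6_nt.Sm.F.Mip
import Pool.Agent.Lib.MP_72e2e6_nt.Sm.F.Nz
import Pool.Agent.Lib.MP_72e2e6_nt.Sm.F.Pnt
import Pool.Agent.Lib.MP_72e2e6_nt.Sm.F.Prm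
import Pool.Agent.Lib.MP_72e2e6_nt.Sm.F.Rs
import Pool.Agent.Lib.MP_72e2e6_nt.Sm.F.Spl
import Pool.Agent.Lib.MP_72e2e6_nt.Sm.F.Ste
import Pool.Agent.Lib.MP_72e2e6_nt.Sm.F.SteA
import Pool.Agent.Lib.MP_72e2e6_nt.Sm.F.Zr
import Pool.Agent.Lib.MP_72e2e6_nt.Sm.G.Ari
import Pool.Agent.Lib.MP_72e2e6_nt.Sm.G.Bin
import Pool.Agent.Lib.MP_72e2e6_nt.Sm.G.Chs
import Pool.Agent.Lib.MP_72e2e6_nt.Sm.G.Cmm
import Pool.Agent.Lib.MP_72e2e6_nt.Sm.G.Dns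
import Pool.Agent.Lib.MP_72e2e6_nt.Sm.G.Dnz
import Pool.Agent.Lib.MP_72e2e6_nt.Sm.G.Eqz
import Pool.Agent.Lib.MP_72e2e6_nt.Sm.G.Exp
import Pool.Agent.Lib.MP_72e2e6_nt.Sm.G.Fct
import Pool.Agent.Lib.MP_72e2e6_nt.Sm.G.Few
import Pool.Agent.Lib.MP_72e2e6_nt.Sm.G.Fou
import Pool.Agent.Lib.MP_72e2e6_nt.Sm.G.Hg
import Pool.Agent.Lib.MP_72e2e6_nt.Sm.G.Irc
import Pool.Agent.Lib.MP_72e2e6_nt.Sm.G.Ksy
import Pool.Agent.Lib.MP_72e2e6_nt.Sm.G.Lg1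
import Pool.Agent.Lib.MP_72e2e6_nt.Sm.G.Lg2
import Pool.Agent.Lib.MP_72e2e6_nt.Sm.G.Lg2a
import Pool.Agent.Lib.MP_72e2e6_nt.Sm.G.Lg2b
import Pool.Agent.Lib.MP_72e2e6_nt.Sm.G.Lg3
import Pool.Agent.Lib.MP_72e2e6_nt.Sm.G.Lnk
import Pool.Agent.Lib.MP_72e2e6_nt.Sm.G.Lvg
import Pool.Agent.Lib.MP_72e2e6_nt.Sm.G.Mbd
import Pool.Agent.Lib.MP_72e2e6_nt.Sm.G.Mom
import Pool.Agent.Lib.MP_72e2e6_nt.Sm.G.Mop
import Pool.Agent.Lib.MP_72e2e6_nt.Sm.G.Nir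
import Pool.Agent.Lib.MP_72e2e6_nt.Sm.G.Nrr
import Pool.Agent.Lib.MP_72e2e6_nt.Sm.G.Odm
import Pool.Agent.Lib.MP_72e2e6_nt.Sm.G.Pbd
import Pool.Agent.Lib.MP_72e2e6_nt.Sm.G.Prb
import Pool.Agent.Lib.MP_72e2e6_nt.Sm.G.Pwc
import Pool.Agent.Lib.MP_72e2e6_nt.Sm.G.Rk1
import Pool.Agent.Lib.MP_72e2e6_nt.Sm.G.Str
import Pool.Agent.Lib.MP_72e2e6_nt.Sm.G.Tmc
import Pool.Agent.Lib.MP_72e2e6_nt.Sm.G.Tmz
import Pool.Agent.Lib.MP_72e2e6_nt.Sm.G.Tup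
import Pool.Agent.Lib.MP_72e2e6_nt.Sm.G.Two
import Pool.Agent.Lib.MP_72e2e6_nt.Sm.H.Ax
import Pool.Agent.Lib.MP_72e2e6_nt.Sm.H.Ax3
import Pool.Agent.Lib.MP_72e2e6_nt.Sm.H.Chr
import Pool.Agent.Lib.MP_72e2e6_nt.Sm.H.Cm
import Pool.Agent.Lib.MP_72e2e6_nt.Sm.H.Cnc
import Pool.Agent.Lib.MP_72e2e6_nt.Sm.H.EQ
import Pool.Agent.Lib.MP_72e2e6_nt.Sm.H.End
import Pool.Agent.Lib.MP_72e2e6_nt.Sm.H.FinT
import Pool.Agent.Lib.MP_72e2e6_nt.Sm.H.GO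
import Pool.Agent.Lib.MP_72e2e6_nt.Sm.H.Inj2
import Pool.Agent.Lib.MP_72e2e6_nt.Sm.H.Irf
import Pool.Agent.Lib.MP_72e2e6_nt.Sm.H.Lv
import Pool.Agent.Lib.MP_72e2e6_nt.Sm.H.Nu
import Pool.Agent.Lib.MP_72e2e6_nt.Sm.H.Okt
import Pool.Agent.Lib.MP_72e2e6_nt.Sm.H.StF
import Pool.Agent.Lib.MP_72e2e6_nt.Sm.H.Stp
import Pool.Agent.Lib.MP_72e2e6_nt.Sm.H.Vl
import Pool.Agent.Lib.MP_72e2e6_nt.W2.C.Av
import Pool.Agent.Lib.MP_72e2e6_nt.W2.E.Shg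
import Pool.Agent.Lib.MP_72e2e6_nt.GenAllT

/-!
# MP_72e2e6_nt, `Sm`: final assembly

`aThm : Thm` is the theorem on the tame quadratic twists, without hypotheses.
-/

namespace Pool.Agent.MP72S

/-! ### Block P, parity -/

theorem aEFa : S_EFa := tEFa aBas
theorem aQc2 : S_Qc2 := tQc2 aEFa
theorem aQch : S_Qch := tQch aEFa
theorem aQbi : S_Qbi := tQbi aEFa
theorem aQka : S_Qka := tQka aEFa
theorem aQlo : S_Qlo := tQlo aDk1 aEFa tIvR tIvc aQch aQbi aQka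
theorem aAltP : S_AltP := tAltP aUq aTai aDk1 aObR aEFa tIvR aQc2 aQlo
theorem aHlf : S_Hlf := tHlf aHom aUq aTai aBas aDk1 aTrl
theorem aRad : S_Rad := tRad aUq aBas aDk1 aObA aDua aAltP aHlf tAltE
theorem aEvn : S_Evn := tEvn aDk1 aRad

/-! ### Block H, abstract part -/

theorem aStF : S_StF := tStF aBas aDk1 aSyF
theorem aStp : S_Stp := tStp aDk1 aSy1 aStF brg
theorem aEnd : S_End := tEnd aDk1 aEvn aStp tInj2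

end Pool.Agent.MP72S

namespace Pool.Agent.MP72S.S

theorem aDvo : S_Dvo := tDvo C.aVee C.aDvn
theorem aTrn : S_Trn := tTrn C.aGrp C.aVee
theorem aTwt : S_Twt := tTwt C.aGrp C.aVee C.aTwi aDvo
theorem aTam : S_Tam := tTam C.aGrp C.aVee C.aHal aTrn tSq1
theorem aIne : S_Ine := tIne C.aGrp C.aVee C.aHal
theorem aUnr : S_Unr := tUnr D.aRe aIne
theorem aTrm : S_Trm := tTrm D.aRe aDvo aTam
theorem aNrc : S_Nrc := tNrc D.aLc D.aLn D.aFg D.aQG D.aKk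
theorem aLdc : S_Ldc := tLdc D.aLf D.aLc D.aLn D.aRq aNrc
theorem aInf : S_Inf := tInf tNoQ
theorem aTyp : S_Typ := tTyp aUnr aTrm aInf
theorem aExs : S_Exs := tExs aInj aUq aTin aTai aBas
theorem aSfn : S_Sfn := tSfn MP72W.tShg aDvo aExs
theorem aHdb : S_Hdb := tHdb C.aGrp C.aVee C.aPrd tHpl
theorem aGok : S_Gok := tGok MP72W.tAv D.aQG D.aKm aLdc
theorem aMain : S_Main := tMain tKum aTwt aTyp aSfn aHdb tHgt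

end Pool.Agent.MP72S.S

namespace Pool.Agent.MP72S.SF

theorem aAux : S_Aux := tAux tInd
theorem aSteA : S_SteA := tSteA tZr aAux
theorem aCrvB : S_CrvB := tCrvB tCrvA
theorem aSte : S_Ste := tSte aSteA aCrvB tHns
theorem aRs : S_Rs := tRs D.aLf D.aLn D.aCs D.aFg D.aKk D.aRo D.aPc
theorem aNz : S_Nz := tNz aRs D.aPc
theorem aPrm : S_Prm := tPrm D.aQG
theorem aMip : S_Mip := tMip D.aKk D.aQG
theorem aPnt : S_Pnt := tPnt aRs D.aPc D.aRo D.aRq D.aKk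
theorem aIrc : S_Irc := tIrc D.aKk D.aRo
theorem aSpl : S_Spl := tSpl aSte aPrm aMip aNz aPnt aIrc D.aKk D.aRo

end Pool.Agent.MP72S.SF

namespace Pool.Agent.MP72S.HD

theorem aIrf : S_Irf := tIrf SF.aIrc
theorem aChr : S_Chr := tChr D.aKm D.aKl tVl
theorem aNu : S_Nu := tNu D.aPc tVl
theorem aAx : S_Ax := tAx C.aAxN C.aGoo D.aQG D.aKt D.aFi D.aRq D.aQd tEQ aChr aNu
theorem aAx3 : S_Ax3 :=
  tAx3 C.aAxE C.aRUp C.aCts C.aPpr C.aNis C.aMlS D.aQG D.aKt D.aQd tEQ aNu aAx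
theorem aCm : S_Cm := tCm D.aKk
theorem aOkt : S_Okt := tOkt C.aTam D.aKl tVl aNu aIrf
theorem aGO : S_GO := tGO S.aGok
theorem aCnc : S_Cnc := tCnc S.tPlt S.aMain aAx aOkt aGO aIrf

end Pool.Agent.MP72S.HD

namespace Pool.Agent.MP72S.Lv

open MP72e2e6

theorem xMon : StmtTwMon.{0} := tTwMon
theorem xPsi : StmtSuPsi.{0} := tSuPsi xMon (tTwPsi xMon) tSuMon
theorem xChr : StmtPeChr.{0} := tPeChr (tPeSte tPeHas.{0} tPeNon.{0})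
theorem xExt : StmtPeExt.{0} := tPeExt tSuSy xPsi
theorem xSyl : StmtPeSyl.{0} := tPeSyl tTwSy (tTwRec tTwSy)
theorem xFrm : StmtPgFrm.{0} := tPgFrm tPpEvn.{0} tPpEvn.{0}

theorem aPrb : S_Prb := tPrb tFou
theorem aStr : S_Str := tStr tPpTS
theorem aDns : S_Dns := tDns tRk1
theorem aMom : S_Mom := tMom tFew aPrb tPpTS
theorem aMbd : S_Mbd := tMbd tFew aPrb aStr tPpTS
theorem aFct : S_Fct := tFct tTwo xFrm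
theorem aNir : S_Nir := tNir xPsi
theorem aChs : S_Chs := tChs tSuSy xPsi xChr xExt xSyl aNir
theorem aTup : S_Tup := tTup xSyl aNir aChs
theorem aEqz : S_Eqz := tEqz aSym aTup
theorem aNrr : S_Nrr := tNrr aNir
theorem aKsy : S_Ksy := tKsy D.aLf D.aLc D.aLn D.aCs D.aQG D.aRt D.aRq D.aKm
theorem aMop : S_Mop := tMop aMsa
theorem aCmm : S_Cmm := tCmm aMsa
theorem aExp : S_Exp := tExp aHom aMop
theorem aLnk : S_Lnk := tLnk aHom aInj aTai aSym aMop aExp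
theorem aTmz : S_Tmz := tTmz aTai aMop aExp
theorem aDnz : S_Dnz := tDnz aMop aDns
theorem aLg3 : S_Lg3 := tLg3 aSym aMop aCmm aExp aLnk aTmz aFct
theorem aPbd : S_Pbd := tPbd aTin aLnk tPwc
theorem aLg1 : S_Lg1 := tLg1 aMop aExp aEqz aLnk aMom
theorem aLg2a : S_Lg2a := tLg2a aMop aExp aEqz aLnk aMom tPwc
theorem aLg2b : S_Lg2b := tLg2b aMop aExp aEqz aTmz aDnz aMbd tBin aPbd
theorem aLg2 : S_Lg2 := tLg2 aPbd aLg2a aLg2b aExp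
theorem aLvg : S_Lvg := tLvg aNrr aLg1 aLg2 aLg3
theorem aIrc : S_Irc := tIrc C.aVee C.aMsg HD.aNu tOdm
theorem aTmc : S_Tmc := tTmc C.aTam D.aKl HD.tVl HD.aNu HD.aIrf
theorem aAri : S_Ari := tAri tSuSy xSyl D.aKl HD.tVl HD.aIrf aKsy
theorem aHg : S_Hg := tHg HD.aAx HD.aOkt aIrc aTmc aAri aLvg

end Pool.Agent.MP72S.Lv

namespace Pool.Agent.MP72S.HD

theorem aLv : S_Lv :=
  tLv D.aRq D.aKk SF.aSpl Lv.aHg.1 Lv.aHg.2.1 Lv.aHg.2.2 aIrf aCm aOkt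
theorem aFin : S_Fin := tFin D.aLo aEnd aAx aAx3 aLv aIrf aCnc

end Pool.Agent.MP72S.HD

namespace Pool.Agent.MP72T

theorem aThm : Thm := thm_of exTam MP72S.HD.aFin

end Pool.Agent.MP72T
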