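import Pool.Agent.Lib.MP_72e2e6_nt.Sm.AllN
import Pool.Agent.Lib.MP_72e2e6_nt.Sm.B.AltP
import Pool.Agent.Lib.MP_72e2e6_nt.Sm.B.Chi
import Pool.Agent.Lib.MP_72e2e6_nt.Sm.B.Chs
import Pool.Agent.Lib.MP_72e2e6_nt.Sm.B.CmL
import Pool.Agent.Lib.MP_72e2e6_nt.Sm.B.CntR
import Pool.Agent.Lib.MP_72e2e6_nt.Sm.B.Coe
import Pool.Agent.Lib.MP_72e2e6_nt.Sm.B.Cou
import Pool.Agent.Lib.MP_72e2e6_nt.Sm.B.Cst
import Pool.Agent.Lib.MP_72e2e6_nt.Sm.B.DcpB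
import Pool.Agent.Lib.MP_72e2e6_nt.Sm.B.DensB
import Pool.Agent.Lib.MP_72e2e6_nt.Sm.B.Det
import Pool.Agent.Lib.MP_72e2e6_nt.Sm.B.Dk1
import Pool.Agent.Lib.MP_72e2e6_nt.Sm.B.Dom
import Pool.Agent.Lib.MP_72e2e6_nt.Sm.B.Dua
import Pool.Agent.Lib.MP_72e2e6_nt.Sm.B.Evn
import Pool.Agent.Lib.MP_72e2e6_nt.Sm.B.FAri
import Pool.Agent.Lib.MP_72e2e6_nt.Sm.B.FFrm
import Pool.Agent.Lib.MP_72e2e6_nt.Sm.B.FFru
import Pool.Agent.Lib.MP_72e2e6_nt.Sm.B.FHy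
import Pool.Agent.Lib.MP_72e2e6_nt.Sm.B.FIrc
import Pool.Agent.Lib.MP_72e2e6_nt.Sm.B.FSok
import Pool.Agent.Lib.MP_72e2e6_nt.Sm.B.FSzc
import Pool.Agent.Lib.MP_72e2e6_nt.Sm.B.FTm
import Pool.Agent.Lib.MP_72e2e6_nt.Sm.B.FTop
import Pool.Agent.Lib.MP_72e2e6_nt.Sm.B.Fix
import Pool.Agent.Lib.MP_72e2e6_nt.Sm.B.Gam
import Pool.Agent.Lib.MP_72e2e6_nt.Sm.B.Gdc
import Pool.Agent.Lib.MP_72e2e6_nt.Sm.B.Gdf
import Pool.Agent.Lib.MP_72e2e6_nt.Sm.B.HAx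
import Pool.Agent.Lib.MP_72e2e6_nt.Sm.B.HAx3
import Pool.Agent.Lib.MP_72e2e6_nt.Sm.B.HAxl
import Pool.Agent.Lib.MP_72e2e6_nt.Sm.B.HCad
import Pool.Agent.Lib.MP_72e2e6_nt.Sm.B.HChr
import Pool.Agent.Lib.MP_72e2e6_nt.Sm.B.HCnc
import Pool.Agent.Lib.MP_72e2e6_nt.Sm.B.HFnp
import Pool.Agent.Lib.MP_72e2e6_nt.Sm.B.HGO
import Pool.Agent.Lib.MP_72e2e6_nt.Sm.B.HIrf
import Pool.Agent.Lib.MP_72e2e6_nt.Sm.B.HIsk
import Pool.Agent.Lib.MP_72e2e6_nt.Sm.B.HPrt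
import Pool.Agent.Lib.MP_72e2e6_nt.Sm.B.HSpc
import Pool.Agent.Lib.MP_72e2e6_nt.Sm.B.Hlf
import Pool.Agent.Lib.MP_72e2e6_nt.Sm.B.HlfB
import Pool.Agent.Lib.MP_72e2e6_nt.Sm.B.Inj
import Pool.Agent.Lib.MP_72e2e6_nt.Sm.B.IsoE
import Pool.Agent.Lib.MP_72e2e6_nt.Sm.B.LDsc
import Pool.Agent.Lib.MP_72e2e6_nt.Sm.B.LE1d
import Pool.Agent.Lib.MP_72e2e6_nt.Sm.B.LExs
import Pool.Agent.Lib.MP_72e2e6_nt.Sm.B.LFgr
import Pool.Agent.Lib.MP_72e2e6_nt.Sm.B.LHtr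
import Pool.Agent.Lib.MP_72e2e6_nt.Sm.B.LItg
import Pool.Agent.Lib.MP_72e2e6_nt.Sm.B.LLdv
import Pool.Agent.Lib.MP_72e2e6_nt.Sm.B.LLme
import Pool.Agent.Lib.MP_72e2e6_nt.Sm.B.LMain
import Pool.Agent.Lib.MP_72e2e6_nt.Sm.B.LMkl
import Pool.Agent.Lib.MP_72e2e6_nt.Sm.B.LPgk
import Pool.Agent.Lib.MP_72e2e6_nt.Sm.B.LSha
import Pool.Agent.Lib.MP_72e2e6_nt.Sm.B.LTrg
import Pool.Agent.Lib.MP_72e2e6_nt.Sm.B.LTsf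
import Pool.Agent.Lib.MP_72e2e6_nt.Sm.B.LTyp
import Pool.Agent.Lib.MP_72e2e6_nt.Sm.B.LWmw
import Pool.Agent.Lib.MP_72e2e6_nt.Sm.B.Lfx
import Pool.Agent.Lib.MP_72e2e6_nt.Sm.B.Lg1B
import Pool.Agent.Lib.MP_72e2e6_nt.Sm.B.Lg2B
import Pool.Agent.Lib.MP_72e2e6_nt.Sm.B.Lg2aB
import Pool.Agent.Lib.MP_72e2e6_nt.Sm.B.Lg2bB
import Pool.Agent.Lib.MP_72e2e6_nt.Sm.B.LnkR
import Pool.Agent.Lib.MP_72e2e6_nt.Sm.B.MbdR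
import Pool.Agent.Lib.MP_72e2e6_nt.Sm.B.MomR
import Pool.Agent.Lib.MP_72e2e6_nt.Sm.B.NsA
import Pool.Agent.Lib.MP_72e2e6_nt.Sm.B.NsB
import Pool.Agent.Lib.MP_72e2e6_nt.Sm.B.NsC
import Pool.Agent.Lib.MP_72e2e6_nt.Sm.B.NsZ
import Pool.Agent.Lib.MP_72e2e6_nt.Sm.B.O1
import Pool.Agent.Lib.MP_72e2e6_nt.Sm.B.ObA
import Pool.Agent.Lib.MP_72e2e6_nt.Sm.B.ObR
import Pool.Agent.Lib.MP_72e2e6_nt.Sm.B.Odf
import Pool.Agent.Lib.MP_72e2e6_nt.Sm.B.OutB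
import Pool.Agent.Lib.MP_72e2e6_nt.Sm.B.PbdR
import Pool.Agent.Lib.MP_72e2e6_nt.Sm.B.PrbR
import Pool.Agent.Lib.MP_72e2e6_nt.Sm.B.QDkl
import Pool.Agent.Lib.MP_72e2e6_nt.Sm.B.QDkt
import Pool.Agent.Lib.MP_72e2e6_nt.Sm.B.QKex
import Pool.Agent.Lib.MP_72e2e6_nt.Sm.B.QLag
import Pool.Agent.Lib.MP_72e2e6_nt.Sm.B.QLcf
import Pool.Agent.Lib.MP_72e2e6_nt.Sm.B.QMab
import Pool.Agent.Lib.MP_72e2e6_nt.Sm.B.QMlu
import Pool.Agent.Lib.MP_72e2e6_nt.Sm.B.QMuq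
import Pool.Agent.Lib.MP_72e2e6_nt.Sm.B.QPar
import Pool.Agent.Lib.MP_72e2e6_nt.Sm.B.QPgc
import Pool.Agent.Lib.MP_72e2e6_nt.Sm.B.QPgd
import Pool.Agent.Lib.MP_72e2e6_nt.Sm.B.QQqv
import Pool.Agent.Lib.MP_72e2e6_nt.Sm.B.QRcq
import Pool.Agent.Lib.MP_72e2e6_nt.Sm.B.QStb
import Pool.Agent.Lib.MP_72e2e6_nt.Sm.B.QThs
import Pool.Agent.Lib.MP_72e2e6_nt.Sm.B.Qka
import Pool.Agent.Lib.MP_72e2e6_nt.Sm.B.Qlo
import Pool.Agent.Lib.MP_72e2e6_nt.Sm.B.Rad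
import Pool.Agent.Lib.MP_72e2e6_nt.Sm.B.SepF
import Pool.Agent.Lib.MP_72e2e6_nt.Sm.B.SepS
import Pool.Agent.Lib.MP_72e2e6_nt.Sm.B.SqB
import Pool.Agent.Lib.MP_72e2e6_nt.Sm.B.SqS
import Pool.Agent.Lib.MP_72e2e6_nt.Sm.B.StrR
import Pool.Agent.Lib.MP_72e2e6_nt.Sm.B.Sy1
import Pool.Agent.Lib.MP_72e2e6_nt.Sm.B.SyG
import Pool.Agent.Lib.MP_72e2e6_nt.Sm.B.Tai
import Pool.Agent.Lib.MP_72e2e6_nt.Sm.B.Thx
import Pool.Agent.Lib.MP_72e2e6_nt.Sm.B.Tin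
import Pool.Agent.Lib.MP_72e2e6_nt.Sm.B.TotB
import Pool.Agent.Lib.MP_72e2e6_nt.Sm.B.Tre
import Pool.Agent.Lib.MP_72e2e6_nt.Sm.B.TyU
import Pool.Agent.Lib.MP_72e2e6_nt.Sm.B.TyX
import Pool.Agent.Lib.MP_72e2e6_nt.Sm.B.Uq
import Pool.Agent.Lib.MP_72e2e6_nt.Sm.B.VCell
import Pool.Agent.Lib.MP_72e2e6_nt.Sm.B.VCls
import Pool.Agent.Lib.MP_72e2e6_nt.Sm.B.VDat
import Pool.Agent.Lib.MP_72e2e6_nt.Sm.B.VEnd
import Pool.Agent.Lib.MP_72e2e6_nt.Sm.B.VFac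
import Pool.Agent.Lib.MP_72e2e6_nt.Sm.B.VGfx
import Pool.Agent.Lib.MP_72e2e6_nt.Sm.B.VHg
import Pool.Agent.Lib.MP_72e2e6_nt.Sm.B.VHl
import Pool.Agent.Lib.MP_72e2e6_nt.Sm.B.VHz
import Pool.Agent.Lib.MP_72e2e6_nt.Sm.B.VLemB
import Pool.Agent.Lib.MP_72e2e6_nt.Sm.B.VLemD
import Pool.Agent.Lib.MP_72e2e6_nt.Sm.B.VLemE
import Pool.Agent.Lib.MP_72e2e6_nt.Sm.B.VNst
import Pool.Agent.Lib.MP_72e2e6_nt.Sm.B.VPar
import Pool.Agent.Lib.MP_72e2e6_nt.Sm.B.VPsi0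
import Pool.Agent.Lib.MP_72e2e6_nt.Sm.B.VPv
import Pool.Agent.Lib.MP_72e2e6_nt.Sm.B.VRulL
import Pool.Agent.Lib.MP_72e2e6_nt.Sm.B.VStar
import Pool.Agent.Lib.MP_72e2e6_nt.Sm.B.VStp
import Pool.Agent.Lib.MP_72e2e6_nt.Sm.B.VStr0
import Pool.Agent.Lib.MP_72e2e6_nt.Sm.B.VSyc
import Pool.Agent.Lib.MP_72e2e6_nt.Sm.B.Vrj

/-!
# MP_72e2e6_nt, `Sm/B`: assembly

`bThmQ : ThmQ` is the theorem on all quadratic twists, without hypotheses.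
-/

namespace Pool.Agent.MP72B

/-! ### The core -/

theorem cTin : S_Tin := tTin
theorem cTai : S_Tai := tTai
theorem cFix : S_Fix := tFix MP72S.aIso
theorem cLfx : S_Lfx := tLfx cFix
theorem cInj : S_Inj := tInj MP72S.aHom cFix
theorem cUq : S_Uq := tUq cInj
theorem cTyU : S_TyU := tTyU cUq cFix
theorem cDk1 : S_Dk1 := tDk1 cTin cFix MP72S.aBas
theorem cObR : S_ObR := tObR cUq cFix cDk1
theorem cObA : S_ObA := tObA cUq MP72S.aRcv cDk1 cObR cFix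
theorem cO1 : S_O1 := tO1 cDk1 cObA
theorem cDua : S_Dua := tDua MP72S.aHom cTai MP72S.aBas cFix MP72S.aRcv cUq cDk1 cObR MP72S.aLinD
theorem cTre : S_Tre := tTre cUq cTin cTai cDk1 cObR MP72S.aTrl
theorem cDet : S_Det := tDet cUq cTin cDk1 cObA cTre cDua cFix
theorem cGdf : S_Gdf := tGdf
theorem cChi : S_Chi := tChi cGdf MP72S.aAlt
theorem cCmL : S_CmL := tCmL MP72S.aAlt cGdf cTai cChi
theorem cCst : S_Cst := tCst MP72S.aHom cGdf cUq cTai cChi cLfx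
theorem cSy1 : S_Sy1 := tSy1 MP72S.aHom cUq cTai cDk1 cFix
theorem cThx : S_Thx := tThx MP72S.aHom cUq cTai cDk1 cFix
theorem cTyX : S_TyX := tTyX cUq cTai cTyU cFix
theorem cHlf : S_Hlf := tHlf MP72S.aHom cUq cTai MP72S.aBas cDk1 MP72S.aTrl
theorem cQka : S_Qka := tQka MP72S.aEFa
theorem cQlo : S_Qlo := tQlo MP72S.aDk1 MP72S.aEFa MP72S.tIvR MP72S.tIvc MP72S.aQch MP72S.aQbi cQka
theorem cAltP : S_AltP := tAltP cUq cTai cDk1 cObR MP72S.aEFa MP72S.tIvR MP72S.aQc2 cQlo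
theorem cRad : S_Rad := tRad cUq MP72S.aBas cDk1 cObA cDua cAltP cHlf MP72S.tAltE
theorem cEvn : S_Evn := tEvn cDk1 cRad
theorem cCou : S_Cou := tCou cUq MP72S.aBas cDk1 cObA
theorem cGam : S_Gam := tGam cDk1 cCou
theorem cChs : S_Chs := tChs cGam cTyU cDk1 cUq MP72S.aBas
theorem cCoe : S_Coe := tCoe MP72S.aHom cUq cTai cLfx cSy1 MP72S.bCf
theorem cDom : S_Dom := tDom MP72S.aSym MP72S.bCf
theorem cSyG : S_SyG := tSyG MP72S.aAlt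
theorem cGdc : S_Gdc := tGdc cSyG MP72S.bCf
theorem cIsoE : S_IsoE := tIsoE MP72S.aEFa MP72S.tIvR MP72S.tIvc

/-! ### The cube -/

theorem cSepF : S_SepF := tSepF cChi
theorem cSepS : S_SepS := tSepS cTai
theorem cVLemB : S_VLemB := tVLemB MP72S.aAlt MP72S.aDif cGdf MP72S.aHom cUq cTai cChi cFix cTyU cSepF
theorem cVPar : S_VPar := tVPar MP72S.aAlt cGdf cSepF cVLemB
theorem cVStar : S_VStar :=
  tVStar MP72S.aAlt MP72S.aDif cGdf MP72S.aHom cUq cTai cChi cFix cCst MP72S.aRcv cDk1 cSepF cVLemB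
theorem cVStr0 : S_VStr0 := tVStr0 MP72S.aAlt cUq cTin cTai cChi cFix
theorem cVFac : S_VFac := tVFac MP72S.aAlt MP72S.aDif cGdf cUq cSepF cVLemB cVPar
theorem cVPsi0 : S_VPsi0 := tVPsi0 MP72S.aAlt cGdf cUq cTai cChi cLfx cVPar
theorem cVGfx : S_VGfx := tVGfx cObA cTyX
theorem cVLemD : S_VLemD :=
  tVLemD MP72S.aAlt cGdf cUq cTai cChi MP72S.aCmp cCmL cSepF cVLemB
theorem cVLemE : S_VLemE :=
  tVLemE MP72S.aAlt cGdf MP72S.aHom cUq cTai cChi cCst MP72S.aCmp cCmL MP72S.aRcv cDk1 cFix cObR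
    cObA cSepF cVLemB cVLemD
theorem cVRulL : S_VRulL :=
  tVRulL MP72S.aAlt cGdf MP72S.aHom cUq cTin cTai cChi cCst MP72S.aCmp cCmL MP72S.aRcv cDk1 cFix
    cObR cObA cTre cDua cSepF cVLemB cVLemD
theorem cVHg : S_VHg := tVHg cVLemE cObA MP72S.bCf cGdc cVGfx
theorem cVHz : S_VHz := tVHz cDet cO1 cObA cDom cSy1 cVGfx
theorem cVHl : S_VHl := tVHl cVRulL MP72S.bCf cGdc
theorem cVPv : S_VPv := tVPv cVFac cVPsi0 cVStr0 cVStar cTin cUq cDk1 cObA MP72S.bCf cGdc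
theorem cVCls : S_VCls :=
  tVCls MP72S.aCom MP72S.aRat MP72S.bHgr cVPv MP72S.tIdxE cCoe cTai cUq cDk1 MP72S.bCf
theorem cVDat : S_VDat :=
  tVDat cDom cVHg cVHz cVHl cVCls MP72S.nVCrd cVGfx
theorem cVCell : S_VCell :=
  tVCell MP72S.bCf MP72S.bSpt cSy1 cSepS cThx cVDat (Pool.Agent.Lib.MP_72e2e6_nt.Sm.Cnt.tMin2 (Pool.Agent.Lib.MP_72e2e6_nt.Sm.Cnt.tCod2 Pool.Agent.Lib.MP_72e2e6_nt.Sm.Cnt.tCst))
theorem cVSyc : S_VSyc := tVSyc MP72S.aSym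
theorem cVNst : S_VNst := tVNst cVSyc cSy1 cDk1
theorem cVStp : S_VStp :=
  tVStp cDk1 cSy1 cChs cVCell MP72S.nVNcl cVNst MP72S.tVSum
theorem cVEnd : S_VEnd := tVEnd cDk1 cVStp MP72S.tVInj

/-! ### Level one -/

theorem cPrbR : S_PrbR := tPrbR MP72S.Lv.tFou
theorem cStrR : S_StrR := tStrR MP72e2e6.tPpTS
theorem cMomR : S_MomR := tMomR MP72S.Lv.tFew cPrbR cStrR MP72e2e6.tPpTS
theorem cMbdR : S_MbdR := tMbdR MP72S.Lv.tFew cPrbR cStrR MP72e2e6.tPpTS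
theorem cLnkR : S_LnkR :=
  tLnkR MP72S.aHom MP72S.aSym MP72S.Lv.aMop MP72S.Lv.aExp cUq cTai cTyU cDk1
theorem cCntR : S_CntR := tCntR cLnkR cDk1
theorem cPbdR : S_PbdR :=
  tPbdR MP72S.aHom MP72S.Lv.aMop MP72S.Lv.aExp cUq cTin cTyU cDk1 cLnkR
theorem cLg1B : S_Lg1B :=
  tLg1B MP72S.Lv.aMop MP72S.Lv.aExp cLnkR cCntR cMomR MP72S.LvU.tBinu MP72S.LvU.gEqzE
    MP72S.LvU.tEpsu
theorem cLg2aB : S_Lg2aB :=
  tLg2aB MP72S.Lv.aMop MP72S.Lv.aExp cLnkR cCntR cMomR MP72S.LvU.tBinu MP72S.LvU.gEqzE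
    MP72S.LvU.tEpsu
theorem cLg2bB : S_Lg2bB :=
  tLg2bB MP72S.Lv.aMop MP72S.Lv.aExp MP72S.Lv.aDnz cLnkR cMbdR cPbdR MP72S.LvU.tBinu
    MP72S.LvU.gEqzE MP72S.LvU.tEpsu
theorem cLg2B : S_Lg2B := tLg2B MP72S.Lv.aExp cPbdR cLg2aB cLg2bB

end Pool.Agent.MP72B

/-! ### Blocks L and Q: local theory, parity -/

namespace Pool.Agent.MP72B.Loc

open MP72S

theorem lDsc : S_Dsc := tDsc C.aGrp C.aPrd
theorem lE1d : S_E1d := tE1d C.aGrp C.aHal S.tSq1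
theorem lExs : S_Exs := tExs MP72B.cUq MP72B.cTin MP72B.cTyU MP72B.cInj MP72B.cFix MP72S.aBas
theorem lFgr : S_Fgr := tFgr
theorem lHtr : S_Htr := tHtr C.aGrp
theorem lItg : S_Itg := tItg C.aVee C.aRrq
theorem lPgk : S_Pgk := tPgk D.aLc
theorem lLdv : S_Ldv := tLdv C.aGrp D.aLc lDsc lPgk lE1d
theorem lLme : S_Lme := tLme C.aBs2
theorem lMkl : S_Mkl := tMkl lLme MP72B.cIsoE
theorem lSha : S_Sha := tSha MP72W.tShg S.aDvo lExs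
theorem lTrg : S_Trg := tTrg D.aRe S.aDvo
theorem lTsf : S_Tsf := tTsf C.aGrp C.aAcp C.aPpr lItg lDsc
theorem lTyp : S_Typ := tTyp S.aUnr lTrg S.aInf
theorem lWmw : S_Wmw := tWmw MP72W.tShg S.aDvo MP72B.cUq MP72B.cTyU
theorem lMain : S_Main :=
  tMain S.tKum S.aTwt lTyp lSha lWmw S.aHdb lHtr lFgr C.aVee MP72B.cDk1

end Pool.Agent.MP72B.Loc

namespace Pool.Agent.MP72B.Par

open MP72S

theorem pThs : S_Ths := tThs C.aGrp C.aVee C.aAcp C.aPpr C.aInt C.aUsg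
theorem pStb : S_Stb := tStb C.aPpr
theorem pLcf : S_Lcf := tLcf
theorem pMab : S_Mab := tMab
theorem pPgc : S_Pgc := tPgc
theorem pPgd : S_Pgd := tPgd C.aTwi C.aGoo C.aPpr
theorem pKex : S_Kex := tKex MP72S.aBas
theorem pLag : S_Lag := tLag MP72S.tAltE
theorem pRcq : S_Rcq := tRcq MP72S.aBas MP72S.aRcv
theorem pPar : S_Par := tPar MP72S.aHom MP72S.aBas pLag pLcf pRcq
theorem pDkl : S_Dkl := tDkl MP72B.cFix MP72B.cUq MP72B.cDk1 MP72B.cTyU pLcf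
theorem pDkt : S_Dkt := tDkt MP72S.aUq MP72S.aDk1 MP72S.aTyU MP72S.aTai pLcf
theorem pMlu : S_Mlu := tMlu C.aVee C.aPpr C.aTwi C.aUsg C.aUhf pThs
theorem pMuq : S_Muq := tMuq C.aBs1 C.aBs2 MP72S.aBas MP72S.aEFa
theorem pQqv : S_Qqv := tQqv C.aGrp C.aVee C.aRrq C.aAcp C.aMsg C.aDvn pStb

end Pool.Agent.MP72B.Par

/-! ### Block H: the hypotheses of the abstract theorem -/

namespace Pool.Agent.MP72B.HB

open MP72S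

theorem hIrf : S_Irf := tIrf SF.aIrc
theorem hGO : S_GO := tGO MP72S.S.aGok
theorem hFnp : S_Fnp := tFnp HD.aNu D.aLf D.aPc Loc.lTsf
theorem hSpc : S_Spc := tSpc D.aLf D.aLc D.aLn D.aKm D.aKl D.aRq S.aNrc
theorem hChr : S_Chr := tChr D.aKm D.aKl HD.tVl
theorem hAx : S_Ax :=
  tAx C.aAxN C.aGoo D.aQG D.aKt D.aFi D.aRq D.aQd HD.tEQ hChr HD.aNu
theorem hAx3 : S_Ax3 :=
  tAx3 C.aAxE C.aRUp C.aCts C.aPpr C.aNis C.aMlS D.aQG D.aKt D.aQd HD.tEQ HD.aNu hAx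
theorem hAxl : S_Axl := tAxl hAx hAx3 hFnp Loc.lMkl
theorem hIsk : S_Isk := tIsk hAx HD.aNu D.aQG Par.pKex Par.pQqv
theorem hCad : S_Cad :=
  tCad hAx hAx3 HD.aNu hFnp hSpc D.aKm D.aKl D.aQG Par.pLcf Par.pPgd Par.pPgc
    Par.pMab Par.pMlu Par.pMuq
theorem hPrt : S_Prt :=
  tPrt hAx hAxl hFnp hIsk hCad D.aKm HD.aAx HD.aIrf HD.aOkt Lv.aHg.2.2
    HD.aNu MP72T.exTam Par.pPar Par.pDkl Par.pDkt D.aKl HD.tVl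
theorem hCnc : S_Cnc :=
  tCnc hAx hAx3 hAxl hGO hPrt D.aLf S.tPlt Loc.lLdv Loc.lMain
    MP72B.cEvn

end Pool.Agent.MP72B.HB

/-! ### The interface and the theorem -/

namespace Pool.Agent.MP72B.Frm

open MP72S MP72e2e6

theorem fIrc : S_FIrc := tFIrc C.aVee C.aMsg HD.aNu Lv.tOdm
theorem fAri : S_FAri := tFAri tSuSy Lv.xSyl D.aKl HD.tVl HB.hIrf Lv.aKsy
theorem fHy : S_FHy := tFHy
theorem fTm : S_FTm := tFTm D.aKl HD.tVl HD.aNu C.aGoo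
theorem fSok : S_FSok := tFSok fHy
theorem fFru : S_FFru := tFFru fSok
theorem fSzc : S_FSzc := tFSzc HB.hIrf Lv.aNir fHy fSok
theorem fTop : S_FTop := tFTop HB.hIrf HB.hCnc fHy fSok
theorem fFrm : S_FrmB :=
  tFFrm D.aLo D.aRq D.aKk cVEnd cLg1B cLg2aB cLg2B SX.xSplF.2 HB.hAx HB.hAxl
    HB.hIrf HD.aCm fIrc fAri fHy MP72S.Frm.tFNum fTm fFru fSzc fTop

theorem rDcp : S_DcpB := tDcpB
theorem rVrj : S_Vrj := tVrj Lv.xMon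
theorem rOdf : S_Odf := tOdf Lv.aNir rVrj
theorem rTot : S_TotB := tTotB rDcp
theorem rSqB : S_SqB := tSqB
theorem rSqS : S_SqS := tSqS Lv.xMon rSqB
theorem rNsA : S_NsA := tNsA
theorem rNsB : S_NsB := tNsB
theorem rNsC : S_NsC := tNsC rNsA rNsB
theorem rNsZ : S_NsZ := tNsZ rNsA rNsB
theorem rDens : S_DensB := tDensB Ns.sSqf Ns.sDens rOdf
theorem rHlf : S_HlfB := tHlfB Ns.sSqf rDcp rTot rNsA rNsC rNsZ rSqS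
theorem rOut : S_OutB := tOutB rDens rTot rHlf fFrm

end Pool.Agent.MP72B.Frm

namespace Pool.Agent.MP72T

/-- THE THEOREM: one hundred percent of all quadratic twists, in the natural density. -/
theorem bThmQ : ThmQ := MP72B.Frm.rOut

end Pool.Agent.MP72T
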