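import Pool.Agent.Lib.MP_72e2e6_nt.Sm.All
import Pool.Agent.Lib.MP_72e2e6_nt.Sm.N.Cod2
import Pool.Agent.Lib.MP_72e2e6_nt.Sm.N.Cst
import Pool.Agent.Lib.MP_72e2e6_nt.Sm.N.FFrm
import Pool.Agent.Lib.MP_72e2e6_nt.Sm.N.FFru
import Pool.Agent.Lib.MP_72e2e6_nt.Sm.N.FNum
import Pool.Agent.Lib.MP_72e2e6_nt.Sm.N.FSok
import Pool.Agent.Lib.MP_72e2e6_nt.Sm.N.FSzc
import Pool.Agent.Lib.MP_72e2e6_nt.Sm.N.FTop
import Pool.Agent.Lib.MP_72e2e6_nt.Sm.N.Min2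
import Pool.Agent.Lib.MP_72e2e6_nt.Sm.N.SepF
import Pool.Agent.Lib.MP_72e2e6_nt.Sm.N.SepS
import Pool.Agent.Lib.MP_72e2e6_nt.Sm.N.Thx
import Pool.Agent.Lib.MP_72e2e6_nt.Sm.N.TyX
import Pool.Agent.Lib.MP_72e2e6_nt.Sm.N.VCell
import Pool.Agent.Lib.MP_72e2e6_nt.Sm.N.VCls
import Pool.Agent.Lib.MP_72e2e6_nt.Sm.N.VCrd
import Pool.Agent.Lib.MP_72e2e6_nt.Sm.N.VDat
import Pool.Agent.Lib.MP_72e2e6_nt.Sm.N.VEnd
import Pool.Agent.Lib.MP_72e2e6_nt.Sm.N.VFac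
import Pool.Agent.Lib.MP_72e2e6_nt.Sm.N.VGfx
import Pool.Agent.Lib.MP_72e2e6_nt.Sm.N.VHg
import Pool.Agent.Lib.MP_72e2e6_nt.Sm.N.VHl
import Pool.Agent.Lib.MP_72e2e6_nt.Sm.N.VHz
import Pool.Agent.Lib.MP_72e2e6_nt.Sm.N.VInj
import Pool.Agent.Lib.MP_72e2e6_nt.Sm.N.VLemB
import Pool.Agent.Lib.MP_72e2e6_nt.Sm.N.VLemD
import Pool.Agent.Lib.MP_72e2e6_nt.Sm.N.VLemE
import Pool.Agent.Lib.MP_72e2e6_nt.Sm.N.VNcl
import Pool.Agent.Lib.MP_72e2e6_nt.Sm.N.VNst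
import Pool.Agent.Lib.MP_72e2e6_nt.Sm.N.VPar
import Pool.Agent.Lib.MP_72e2e6_nt.Sm.N.VPsi0
import Pool.Agent.Lib.MP_72e2e6_nt.Sm.N.VPv
import Pool.Agent.Lib.MP_72e2e6_nt.Sm.N.VRulL
import Pool.Agent.Lib.MP_72e2e6_nt.Sm.N.VStar
import Pool.Agent.Lib.MP_72e2e6_nt.Sm.N.VStp
import Pool.Agent.Lib.MP_72e2e6_nt.Sm.N.VStr0
import Pool.Agent.Lib.MP_72e2e6_nt.Sm.N.VSum
import Pool.Agent.Lib.MP_72e2e6_nt.Sm.N.VSyc
import Pool.Agent.Lib.MP_72e2e6_nt.Sm.NG.Binu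
import Pool.Agent.Lib.MP_72e2e6_nt.Sm.NG.ChsE
import Pool.Agent.Lib.MP_72e2e6_nt.Sm.NG.Epsu
import Pool.Agent.Lib.MP_72e2e6_nt.Sm.NG.EqzE
import Pool.Agent.Lib.MP_72e2e6_nt.Sm.NG.Lg1U
import Pool.Agent.Lib.MP_72e2e6_nt.Sm.NG.Lg2U
import Pool.Agent.Lib.MP_72e2e6_nt.Sm.NG.Lg2aU
import Pool.Agent.Lib.MP_72e2e6_nt.Sm.NG.Lg2bU
import Pool.Agent.Lib.MP_72e2e6_nt.Sm.NG.Momu
import Pool.Agent.Lib.MP_72e2e6_nt.Sm.NG.TupE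
import Pool.Agent.Lib.MP_72e2e6_nt.Sm.NS.Chb
import Pool.Agent.Lib.MP_72e2e6_nt.Sm.NS.Cnd
import Pool.Agent.Lib.MP_72e2e6_nt.Sm.NS.Cop
import Pool.Agent.Lib.MP_72e2e6_nt.Sm.NS.Dcp
import Pool.Agent.Lib.MP_72e2e6_nt.Sm.NS.Dens
import Pool.Agent.Lib.MP_72e2e6_nt.Sm.NS.Few
import Pool.Agent.Lib.MP_72e2e6_nt.Sm.NS.Fib
import Pool.Agent.Lib.MP_72e2e6_nt.Sm.NS.Fm
import Pool.Agent.Lib.MP_72e2e6_nt.Sm.NS.Hya
import Pool.Agent.Lib.MP_72e2e6_nt.Sm.NS.Num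
import Pool.Agent.Lib.MP_72e2e6_nt.Sm.NS.OutN
import Pool.Agent.Lib.MP_72e2e6_nt.Sm.NS.Pos
import Pool.Agent.Lib.MP_72e2e6_nt.Sm.NS.Sdg
import Pool.Agent.Lib.MP_72e2e6_nt.Sm.NS.Sqf
import Pool.Agent.Lib.MP_72e2e6_nt.Sm.NS.Srt
import Pool.Agent.Lib.MP_72e2e6_nt.Sm.NS.Tot
import Pool.Agent.Lib.MP_72e2e6_nt.Sm.NS.Vr
import Pool.Agent.Lib.MP_72e2e6_nt.Sm.X.AuxX
import Pool.Agent.Lib.MP_72e2e6_nt.Sm.X.Bet
import Pool.Agent.Lib.MP_72e2e6_nt.Sm.X.Des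
import Pool.Agent.Lib.MP_72e2e6_nt.Sm.X.Frp
import Pool.Agent.Lib.MP_72e2e6_nt.Sm.X.Gal
import Pool.Agent.Lib.MP_72e2e6_nt.Sm.X.GeQ
import Pool.Agent.Lib.MP_72e2e6_nt.Sm.X.H0
import Pool.Agent.Lib.MP_72e2e6_nt.Sm.X.Jm1
import Pool.Agent.Lib.MP_72e2e6_nt.Sm.X.JmX
import Pool.Agent.Lib.MP_72e2e6_nt.Sm.X.Jmp
import Pool.Agent.Lib.MP_72e2e6_nt.Sm.X.Per
import Pool.Agent.Lib.MP_72e2e6_nt.Sm.X.Pf
import Pool.Agent.Lib.MP_72e2e6_nt.Sm.X.Pf0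
import Pool.Agent.Lib.MP_72e2e6_nt.Sm.X.Psi
import Pool.Agent.Lib.MP_72e2e6_nt.Sm.X.Rh
import Pool.Agent.Lib.MP_72e2e6_nt.Sm.X.Rmc
import Pool.Agent.Lib.MP_72e2e6_nt.Sm.X.Rst
import Pool.Agent.Lib.MP_72e2e6_nt.Sm.X.SplF
import Pool.Agent.Lib.MP_72e2e6_nt.Sm.X.SplU
import Pool.Agent.Lib.MP_72e2e6_nt.Sm.X.Spn
import Pool.Agent.Lib.MP_72e2e6_nt.Sm.X.Ste
import Pool.Agent.Lib.MP_72e2e6_nt.Sm.X.Upp
import Pool.Agent.Lib.MP_72e2e6_nt.Sm.X.Zr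
import Pool.Agent.Lib.MP_72e2e6_nt.Sm.Y.IdxE

/-!
# MP_72e2e6_nt, `Sm`: assembly of the natural density version
-/

namespace Pool.Agent.MP72S

/-! ### Block N -/

theorem nSepF : S_SepF := tSepF aChi
theorem nSepS : S_SepS := tSepS aTai
theorem nTyX : S_TyX := tTyX aUq aTai aTyU
theorem nThx : S_Thx := tThx aHom aUq aTai aDk1
theorem nVLemB : S_VLemB := tVLemB aAlt aDif aGdf aHom aUq aTai aChi aLfx nSepF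
theorem nVPar : S_VPar := tVPar aAlt aGdf nSepF nVLemB
theorem nVLemD : S_VLemD := tVLemD aAlt aGdf aUq aTai aChi aCmp aCmL nSepF nVLemB
theorem nVLemE : S_VLemE :=
  tVLemE aAlt aGdf aHom aUq aTai aChi aLemB aCmp aCmL aRcv aDk1 aObR aObA nSepF nVLemB nVLemD
theorem nVRulL : S_VRulL :=
  tVRulL aAlt aGdf aHom aUq aTin aTai aChi aLemB aCmp aCmL aRcv aDk1 aObR aObA aTre aDua nSepF
    nVLemB nVLemD
theorem nVStar : S_VStar :=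
  tVStar aAlt aDif aGdf aHom aUq aTai aChi aLemB aIso aRcv aDk1 nSepF nVLemB
theorem nVStr0 : S_VStr0 := tVStr0 aAlt aUq aTin aTai aChi
theorem nVFac : S_VFac := tVFac aAlt aDif aGdf aUq nSepF nVLemB nVPar
theorem nVPsi0 : S_VPsi0 := tVPsi0 aAlt aGdf aUq aTai aChi aLfx nVPar
theorem nVGfx : S_VGfx := tVGfx aObA nTyX
theorem nVHg : S_VHg := tVHg nVLemE aObA bCf bGdc nVGfx
theorem nVHz : S_VHz := tVHz aDet aO1 aObA bDom nVGfx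
theorem nVHl : S_VHl := tVHl nVRulL bCf bGdc
theorem nVPv : S_VPv := tVPv nVFac nVPsi0 nVStr0 nVStar aTin aUq aDk1 aObA bCf bGdc
theorem nVCls : S_VCls := tVCls aCom aRat bHgr nVPv tIdxE bCoe aTai aUq aDk1 bCf
theorem nVCrd : S_VCrd := tVCrd aBas
theorem nVDat : S_VDat := tVDat bDom nVHg nVHz nVHl nVCls nVCrd nVGfx
theorem nVCell : S_VCell :=
  tVCell bCf bSpt aSy1 nSepS nThx nVDat (Pool.Agent.Lib.MP_72e2e6_nt.Sm.Cnt.tMin2 (Pool.Agent.Lib.MP_72e2e6_nt.Sm.Cnt.tCod2 Pool.Agent.Lib.MP_72e2e6_nt.Sm.Cnt.tCst))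
theorem nVNcl : S_VNcl := tVNcl aBas nVCrd
theorem nVSyc : S_VSyc := tVSyc aSym
theorem nVNst : S_VNst := tVNst nVSyc aSy1 aDk1
theorem nVStp : S_VStp := tVStp aDk1 aSy1 bChs nVCell nVNcl nVNst tVSum
theorem nVEnd : S_VEnd := tVEnd aDk1 aEvn nVStp tVInj

end Pool.Agent.MP72S

/-! ### Block X -/

namespace Pool.Agent.MP72S.SX

theorem xPf : S_Pf := tPf tPf0
theorem xZr : S_Zr := tZr xPf
theorem xJmp : S_Jmp := tJmp tJm1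
theorem xJmX : S_JmX := tJmX xJmp
theorem xUpp : S_Upp := tUpp xZr xJmp
theorem xAux : S_Aux := tAux tRh xZr xUpp
theorem xSte : S_Ste := tSte xUpp xZr xAux

theorem xPsi : S_Psi := tPsi D.aRq D.aKk D.aRo
theorem xGeQ : S_GeQ := tGeQ xPsi D.aPc D.aRo D.aKk D.aFx D.aRq
theorem xPer : S_Per := tPer xPsi D.aPc D.aRq D.aKk
theorem xH0 : S_H0 := tH0 xPsi D.aKt D.aKk
theorem xSpn : S_Spn := tSpn tDes xPer D.aKk D.aKt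
theorem xFrp : S_Frp := tFrp xPsi D.aPc D.aRq D.aKk

theorem xGal : S_Gal := tGal D.aQG D.aKt D.aPr
theorem xRst : S_Rst := tRst xPf xJmX xUpp tBet
theorem xRmc : S_Rmc := tRmc xUpp xRst
theorem xSplU : S_SplU :=
  tSplU xRmc xSte xPsi xGeQ xH0 xSpn xFrp xGal SF.aIrc D.aKk
theorem xSplF : SF.S_SplF := tSplF xSplU D.aKt

end Pool.Agent.MP72S.SX

/-! ### Block NG -/

namespace Pool.Agent.MP72S.LvU

open MP72e2e6 Pool.Agent.MP72S.Lv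

theorem gMomu : S_Momu := tMomu tFew aPrb tPpTS
theorem gChsE : S_ChsE := tChsE tSuSy xPsi xChr xExt xSyl aNir
theorem gTupE : S_TupE := tTupE xSyl aNir gChsE
theorem gEqzE : S_EqzE := tEqzE aSym gTupE
theorem gLg1U : S_Lg1U := tLg1U aMop aExp aLnk aTmz gMomu tBinu gEqzE tEpsu
theorem gLg2aU : S_Lg2aU := tLg2aU aMop aExp aLnk aTmz tPwc gMomu tBinu gEqzE tEpsu
theorem gLg2bU : S_Lg2bU := tLg2bU aMop aExp aTmz aDnz aMbd aPbd tBinu gEqzE tEpsu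
theorem gLg2U : S_Lg2U := tLg2U aExp aPbd gLg2aU gLg2bU

end Pool.Agent.MP72S.LvU

/-! ### Blocks N (frames) and NS -/

namespace Pool.Agent.MP72S.Frm

theorem fFHy : S_FHy := fun _ _ _ a hc d hd h n s hs => Ns.tHya Ns.tDcp a d s h n hc hd hs
theorem fFSok : S_FSok := tFSok fFHy
theorem fFFru : S_FFru := tFFru fFSok
theorem fFSzc : S_FSzc := tFSzc HD.aIrf HD.aOkt Lv.aNir fFHy fFSok
theorem fFTop : S_FTop := tFTop HD.aIrf HD.aCnc fFHy fFSok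
theorem fFFrm : S_FFrm :=
  tFFrm D.aLo D.aRq D.aKk nVEnd LvU.gLg1U LvU.gLg2aU LvU.gLg2U Lv.aLg3 SX.xSplF.2 HD.aAx HD.aAx3 HD.aIrf
    HD.aOkt HD.aCm Lv.aTmc Lv.aIrc Lv.aAri fFHy tFNum fFFru fFSzc fFTop

end Pool.Agent.MP72S.Frm

namespace Pool.Agent.MP72S.Ns

open MP72e2e6

theorem sCop : S_Cop := tCop Lv.xMon
theorem sSqf : S_Sqf := tSqf Lv.xPsi Lv.xMon sCop
theorem sVr : S_Vr := tVr Lv.xMon
theorem sChb : S_Chb := tChb Lv.aNir sVr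
theorem sFm : S_Fm := tFm Lv.xPsi Lv.xMon
theorem sFew : S_Few := tFew sFm sChb tNum
theorem sDens : S_Dens := tDens sSqf sFew tSdg tCnd tFib tSrt
theorem sTot : S_Tot := tTot tDcp
theorem sPos : S_Pos := tPos MP72T.exTam sSqf tDcp
theorem sOut (h : S_FrmN) : MP72T.ThmN := tOutN sDens sTot sPos h

end Pool.Agent.MP72S.Ns

namespace Pool.Agent.MP72T

/-- THE THEOREM: one hundred percent of the tame quadratic twists, in the natural density. -/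
theorem aThmN : ThmN := MP72S.Ns.sOut MP72S.Frm.fFFrm

end Pool.Agent.MP72T
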