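import Pool.Agent.Lib.MP_72e2e6_nt.Sm.Stmt

/-!
# MP_72e2e6_nt: one hundred percent of all quadratic twists, the statement

`F` is a finite field with `q ≡ 1` modulo four elements, `a 0, a 1, a 2 ∈ F[t]`, `E` the elliptic curve
`y ^ 2 = (x - a 0) (x - a 1) (x - a 2)` over `K = F(t)`, `E_D` its quadratic twist `twd a D` by `D ∈ F[t]`; see `Sm/Stmt.lean`.
-/

namespace Pool.Agent.MP72T

open Polynomial WeierstrassCurve

/-- The squarefree polynomials of degree `n` (with an arbitrary leading coefficient). -/
def sqd (F : Type) [Field F] (n : ℕ) : Set F[X] := {D | D.natDegree = n ∧ Squarefree D}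

/-- `w` (a monic irreducible polynomial or `none`, infinity) is a place of split multiplicative reduction of `E_D`: for some
`{i, j, l} = {0, 1, 2}` the roots `a i`, `a j` are nearer to each other than to `a l` at `w` (so the reduction is
potentially multiplicative) and `D (a i - a l)` is a square in the completion at `w`. -/
def Spl {F : Type} [Field F] (a : Fin 3 → F[X]) (D : F[X]) : Option F[X] → Prop
  | some P => P.Monic ∧ Irreducible P ∧ ∃ i j l : Fin 3, i ≠ j ∧ i ≠ l ∧ j ≠ l ∧
      multiplicity P (a i - a l) < multiplicity P (a i - a j) ∧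
      ∃ (e : ℕ) (g h : F[X]), D * (a i - a l) = P ^ (2 * e) * g ∧ ¬ P ∣ g ∧ P ∣ g - h ^ 2
  | none => ∃ i j l : Fin 3, i ≠ j ∧ i ≠ l ∧ j ≠ l ∧ (a i - a j).natDegree < (a i - a l).natDegree ∧
      Even (D.natDegree + (a i - a l).natDegree) ∧
      ∃ c : F, c ^ 2 = D.leadingCoeff * (a i - a l).leadingCoeff

/-- The number of the places of split multiplicative reduction of `E_D`. -/
noncomputable def nsp {F : Type} [Field F] (a : Fin 3 → F[X]) (D : F[X]) : ℕ :=
  {w : Option F[X] | Spl a D w}.ncard

open scoped Classical in
/-- The group of the rational points has rank at most one: it is finite modulo the multiples of some point. -/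
def RkOne {F : Type} [Field F] (W : WeierstrassCurve (RatFunc F)) : Prop :=
  ∃ P : W.toAffine.Point, Finite (W.toAffine.Point ⧸ AddSubgroup.zmultiples P)

/-- THE THEOREM. Let `E` be as in `Cur`, `n → ∞`. (1) For one hundred percent of the squarefree polynomials `D` of degree `n` the
twist `E_D` has rank at most one, and if the number of its places of split multiplicative reduction is even (i.e. its
root number is `+1`) then it has finitely many rational points and a finite `2`-primary part of the Tate-Shafarevich group.
(2) This number is even for at least one half of the squarefree polynomials of degree `n` (up to `ε`). -/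
def ThmQ : Prop :=
  ∀ (F : Type) [Field F] [Finite F] (a : Fin 3 → F[X]), Cur a →
    ∀ ε : ℝ, 0 < ε → ∃ n₀ : ℕ, ∀ n, n₀ ≤ n →
      (1 - ε) * ((sqd F n).ncard : ℝ) ≤
        ({D ∈ sqd F n | RkOne (twd a D) ∧ (Even (nsp a D) → Finite (twd a D).toAffine.Point ∧
          MP72Y.ShaTwoFin (twd a D) (SeparableClosure (RatFunc F)))}.ncard : ℝ) ∧
      (1 / 2 - ε) * ((sqd F n).ncard : ℝ) ≤ ({D ∈ sqd F n | Even (nsp a D)}.ncard : ℝ)

end Pool.Agent.MP72T
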