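import Pool.Agent.Lib.MP_72e2e6_nt.W2.Fin.Defs

/-!
# MP_72e2e6_nt: one hundred percent of the tame quadratic twists, the statement

`F` is a finite field with `q ≡ 1` modulo four elements, `a 0, a 1, a 2 ∈ F[t]`, `E` the elliptic curve
`y ^ 2 = (x - a 0) (x - a 1) (x - a 2)` over `K = F(t)`, `E_D` its quadratic twist `twd a D` by `D ∈ F[t]`.
-/

namespace Pool.Agent.MP72T

open Polynomial WeierstrassCurve

/-- The curve `y ^ 2 = (x - e 0) (x - e 1) (x - e 2)`. -/
def crv {K : Type} [Field K] (e : Fin 3 → K) : WeierstrassCurve K :=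
  ⟨0, -(e 0 + e 1 + e 2), 0, e 0 * e 1 + e 0 * e 2 + e 1 * e 2, -(e 0 * e 1 * e 2)⟩

/-- The twist `y ^ 2 = (x - D a₀) (x - D a₁) (x - D a₂)` over `F(t)`. -/
noncomputable def twd {F : Type} [Field F] (a : Fin 3 → F[X]) (D : F[X]) :
    WeierstrassCurve (RatFunc F) :=
  crv fun i => algebraMap F[X] (RatFunc F) (D * a i)

/-- The hypotheses on `E`: `q ≡ 1` modulo four, the `a i` are different (`E` is an elliptic curve with full
rational two-torsion), and no product `(a i - a j) (a i - a l)` is a constant times a square (`E` has no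
cyclic subgroup of order four which is defined over `F̄(t)`). -/
structure Cur {F : Type} [Field F] (a : Fin 3 → F[X]) : Prop where
  q4 : Nat.card F % 4 = 1
  inj : Function.Injective a
  nis : ∀ i j l : Fin 3, i ≠ j → i ≠ l → j ≠ l → ∀ (c : F) (z : F[X]),
    (a i - a j) * (a i - a l) ≠ C c * z ^ 2

/-- The fixed factor `d` of the twists is squarefree and tame: at the primes `P` dividing
`∏ (a i - a j)`, for every `i`, some `d (a i - a j)` has odd valuation. -/
structure Tam {F : Type} [Field F] (a : Fin 3 → F[X]) (d : F[X]) : Prop where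
  sqf : Squarefree d
  odd : ∀ P : F[X], Irreducible P → P ∣ (a 0 - a 1) * (a 0 - a 2) * (a 1 - a 2) →
    ∀ i, ∃ j, j ≠ i ∧ Odd (multiplicity P d + multiplicity P (a i - a j))

/-- The largest degree of an `a i - a j`. -/
noncomputable def mxd {F : Type} [Field F] (a : Fin 3 → F[X]) : ℕ :=
  max (a 0 - a 1).natDegree (max (a 0 - a 2).natDegree (a 1 - a 2).natDegree)

/-- The `r`-tuples of monic irreducible polynomials with the degrees `n i`. -/
def tps (F : Type) [Field F] {r : ℕ} (n : Fin r → ℕ) : Set (Fin r → F[X]) :=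
  {R | ∀ i, (R i).Monic ∧ Irreducible (R i) ∧ (R i).natDegree = n i}

/-- THE THEOREM. Let `E` be as in `Cur`. There are monic tame `d` (`Tam`), and for every tame `d` and
every `ε > 0` there is `r₀` such that for all `r ≥ r₀` there is `N₁`, for all `n' 0, .., n' (r - 1) ≥ N₁` there is
`N₂`, such that for all `m ≥ N₂` with `deg d + ∑ n' i + m + max deg (a i - a j)` odd: for at least `(1 - ε)` of
all `(r + 1)`-tuples `R` of monic irreducible polynomials of degrees `n' 0, .., n' (r - 1), m` the twist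
`E_D`, `D = d ∏ R k`, has finitely many rational points and a finite `2`-primary part of the
Tate-Shafarevich group. -/
def Thm : Prop :=
  ∀ (F : Type) [Field F] [Finite F] (a : Fin 3 → F[X]), Cur a → (∃ d : F[X], d.Monic ∧ Tam a d) ∧
    ∀ d : F[X], Tam a d → ∀ ε : ℝ, 0 < ε →
    ∃ r₀ : ℕ, ∀ r, r₀ ≤ r → ∃ N₁ : ℕ, ∀ n' : Fin r → ℕ, (∀ i, N₁ ≤ n' i) → ∃ N₂ : ℕ, ∀ m, N₂ ≤ m →
    Odd (d.natDegree + (∑ i, n' i + m) + mxd a) →
    (1 - ε) * ((tps F (Fin.snoc n' m : Fin (r + 1) → ℕ)).ncard : ℝ) ≤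
      ({R ∈ tps F (Fin.snoc n' m : Fin (r + 1) → ℕ) |
        Finite (twd a (d * ∏ k, R k)).toAffine.Point ∧
          MP72Y.ShaTwoFin (twd a (d * ∏ k, R k)) (SeparableClosure (RatFunc F))}.ncard : ℝ)

end Pool.Agent.MP72T
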