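import Pool.Agent.Lib.MP_72e2e6_nt.Sm.Stmt
import Pool.Agent.Lib.MP_72e2e6_nt.Sm.H.Fin
import Pool.Agent.Lib.MP_72e2e6_nt.W2.Fin.Eqv

/-!
# MP_72e2e6_nt, `Sm`: the literal statement follows from `HD.S_Fin`
-/

namespace Pool.Agent.MP72T

open Polynomial WeierstrassCurve

private theorem mxd_eq {F : Type} [Field F] (a : Fin 3 → F[X]) : MP72S.HD.mxd a = mxd a := by
  have h10 : (a 1 - a 0).natDegree = (a 0 - a 1).natDegree := by
    rw [← neg_sub, natDegree_neg]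
  have h20 : (a 2 - a 0).natDegree = (a 0 - a 2).natDegree := by
    rw [← neg_sub, natDegree_neg]
  have h21 : (a 2 - a 1).natDegree = (a 1 - a 2).natDegree := by
    rw [← neg_sub, natDegree_neg]
  have h3 : ∀ f : Fin 3 → ℕ, (Finset.univ.sup f) = max (f 0) (max (f 1) (f 2)) := by
    intro f
    have hu : (Finset.univ : Finset (Fin 3)) = {0, 1, 2} := rfl
    rw [hu, Finset.sup_insert, Finset.sup_insert, Finset.sup_singleton]
  unfold MP72S.HD.mxd mxd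
  rw [h3]
  simp only [h3, sub_self, natDegree_zero, h10, h20, h21]
  omega

private theorem hyp_of {F : Type} [Field F] {a : Fin 3 → F[X]} {d : F[X]} (h : Cur a)
    (hd : Tam a d) : MP72S.HD.Hy a d :=
  ⟨h.q4, h.inj, h.nis, hd.sqf, hd.odd⟩

/-- Existence of tame factors (proved in `Sm/Ex.lean`). -/
def S_Ex : Prop :=
  ∀ (F : Type) [Field F] (a : Fin 3 → F[X]), Function.Injective a → ∃ d : F[X], d.Monic ∧ Tam a d

theorem thm_of (hEx : S_Ex) (h : MP72S.HD.S_Fin) : Thm := by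
  intro F _ _ a ha
  refine ⟨hEx F a ha.inj, fun d hd ε hε => ?_⟩
  obtain ⟨r₀, h⟩ := h F a d (hyp_of ha hd) ε hε
  refine ⟨r₀, fun r hr => ?_⟩
  obtain ⟨N₁, h⟩ := h r hr
  refine ⟨N₁, fun n' hn' => ?_⟩
  obtain ⟨N₂, h⟩ := h n' hn'
  refine ⟨N₂, fun m hm hodd => ?_⟩
  rw [← mxd_eq] at hodd
  obtain ⟨hfin, hle⟩ := h m hm hodd
  refine hle.trans (Nat.cast_le.2 (Set.ncard_le_ncard ?_ (hfin.subset fun R hR => hR.1)))
  rintro R ⟨hR, hf, hs⟩
  exact ⟨hR, hf, MP72Y.shaTwoFin_of _ hs⟩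

end Pool.Agent.MP72T
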