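import Pool.Agent.Lib.MP_72e2e6_nt.Sm.Stmt

/-!
# MP_72e2e6_nt: one hundred percent of the tame quadratic twists (natural density), the statement

`F` is a finite field with `q ≡ 1` modulo four elements, `a 0, a 1, a 2 ∈ F[t]`, `E` the elliptic curve
`y ^ 2 = (x - a 0) (x - a 1) (x - a 2)` over `K = F(t)`, `E_D` its quadratic twist `twd a D` by `D ∈ F[t]`; see `Sm/Stmt.lean`.
-/

namespace Pool.Agent.MP72T

open Polynomial WeierstrassCurve

/-- The tame squarefree polynomials of degree `n` (with an arbitrary leading coefficient). -/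
def tms {F : Type} [Field F] (a : Fin 3 → F[X]) (n : ℕ) : Set F[X] := {D | D.natDegree = n ∧ Tam a D}

/-- THE THEOREM. Let `E` be as in `Cur`. (1) A positive proportion of the polynomials `D` of degree `n` is squarefree and
tame. (2) For one hundred percent of the tame `D` of degree `n` with `n + max deg (a i - a j)` odd, as `n → ∞`, the twist
`E_D` has finitely many rational points and a finite `2`-primary part of the Tate-Shafarevich group. -/
def ThmN : Prop :=
  ∀ (F : Type) [Field F] [Finite F] (a : Fin 3 → F[X]), Cur a →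
    (∃ c : ℝ, 0 < c ∧ ∃ n₀ : ℕ, ∀ n, n₀ ≤ n →
      c * (Nat.card F : ℝ) ^ n ≤ ((tms a n).ncard : ℝ)) ∧
    ∀ ε : ℝ, 0 < ε → ∃ n₀ : ℕ, ∀ n, n₀ ≤ n → Odd (n + mxd a) →
      (1 - ε) * ((tms a n).ncard : ℝ) ≤
        ({D ∈ tms a n | Finite (twd a D).toAffine.Point ∧
          MP72Y.ShaTwoFin (twd a D) (SeparableClosure (RatFunc F))}.ncard : ℝ)

end Pool.Agent.MP72T
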