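import Mathlib

/-!
# MP_72e2e6_nt: the `2^∞`-Selmer groups of quadratic twists over `F_q(t)`, the abstract setting

`G` is a (profinite) group which acts on the `2`-primary divisible group `N` (`N = E[2^∞]`), `V` is
the group of the elements of order two of `N`. `P` is the set of the places, `tau v` an inertia
generator and `phi v` a Frobenius element at the place `v`, `nq v` the order of the residue field.
`S` is a finite set of fixed places (infinity, bad places, divisors of `D₀`), `ch v` is the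
quadratic character of the place `v ≠ ∞`, `cst` the quadratic character of the constants, `ch0` the
character of `D₀`, `e` the Weil pairing on `V`.

A configuration is a map `x : ι → P` to places outside `S` (the prime divisors of the twist); it
gives the character `chi x = ch0 + ∑ ch (x i)` and the twisted module `N (chi x)`. `Z x` is the
group of the types of the cocycles with values in `N (chi x)` which are unramified outside
`S` and the `x i` and which are locally trivial at the places of `S` and the `x i`: the type is the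
family of the elements `2 • Q v` where `ψ = (chi x · - 1) Q v` on the decomposition group.
-/

namespace Pool.Agent.MP72S

open Finset

section algebra

variable {G N : Type} [Group G] [AddCommGroup N] [DistribMulAction G N]

/-- The sign `(-1) ^ a`. -/
def sg {N : Type} [AddCommGroup N] (a : ZMod 2) (x : N) : N := if a = 0 then x else -x

/-- The action twisted by `χ`. -/
def tw (χ : G → ZMod 2) (σ : G) (x : N) : N := sg (χ σ) (σ • x)

/-- Crossed homomorphisms for the action twisted by `χ`. -/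
def IsCo (χ : G → ZMod 2) (ψ : G → N) : Prop := ∀ σ τ, ψ (σ * τ) = ψ σ + tw χ σ (ψ τ)

/-- Locally constant quadratic characters. -/
structure IsCh [TopologicalSpace G] (f : G → ZMod 2) : Prop where
  lc : IsLocallyConstant f
  mul : ∀ σ τ, f (σ * τ) = f σ + f τ

/-- Locally constant homomorphisms to `V`. -/
structure IsHo [TopologicalSpace G] (θ : G → N) : Prop where
  lc : IsLocallyConstant θ
  two : ∀ σ, 2 • θ σ = 0
  mul : ∀ σ τ, θ (σ * τ) = θ σ + θ τ

/-- Locally constant `2`-cocycles for the action `a`. -/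
structure IsC2 {R : Type} [AddCommGroup R] [TopologicalSpace G] (a : G → R → R) (z : G → G → R) :
    Prop where
  lc : IsLocallyConstant fun p : G × G => z p.1 p.2
  coc : ∀ g h k, z g h + z (g * h) k = a g (z h k) + z g (h * k)

end algebra

/-- The data. -/
structure Dat (G N P : Type) where
  /-- the fixed places -/
  S : Finset P
  /-- the place infinity -/
  inf : P
  /-- inertia generators -/
  tau : P → G
  /-- Frobenius elements -/
  phi : P → G
  /-- orders of the residue fields -/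
  nq : P → ℕ
  /-- quadratic characters of the finite places -/
  ch : P → G → ZMod 2
  /-- the quadratic character of the constants -/
  cst : G → ZMod 2
  /-- the quadratic character of `D₀` -/
  ch0 : G → ZMod 2
  /-- the Weil pairing on `V` -/
  e : N → N → ZMod 2

section

variable {G N P : Type}

/-- The local invariant of a `2`-cocycle at the place `v` (the relation `φ τ = τ ^ q φ` in the
extension defined by `z`). -/
def Dat.iv (D : Dat G N P) [Group G] {R : Type} [AddCommGroup R] (z : G → G → R) (v : P) : R :=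
  z (D.phi v) (D.tau v) - ∑ i ∈ range (D.nq v - 1), z (D.tau v ^ (i + 1)) (D.tau v) -
    z (D.tau v ^ D.nq v) (D.phi v)

variable [Group G] [TopologicalSpace G] [AddCommGroup N] [DistribMulAction G N]

/-- The axioms (without `H²`). -/
structure Ax (D : Dat G N P) : Prop where
  q4 : ∀ v, D.nq v % 4 = 1
  rel : ∀ v, D.phi v * D.tau v = D.tau v ^ D.nq v * D.phi v
  infS : D.inf ∈ D.S
  prim : ∀ x : N, ∃ k : ℕ, 2 ^ k • x = 0
  dvs : ∀ x : N, ∃ y : N, 2 • y = x
  four : Nat.card {x : N // 2 • x = 0} = 4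
  act : ∀ x : N, IsLocallyConstant fun σ : G => σ • x
  tri : ∀ (σ : G) (x : N), 2 • x = 0 → σ • x = x
  e_add : ∀ x y z : N, 2 • x = 0 → 2 • y = 0 → 2 • z = 0 → D.e (x + y) z = D.e x z + D.e y z
  e_sym : ∀ x y : N, 2 • x = 0 → 2 • y = 0 → D.e x y = D.e y x
  e_alt : ∀ x : N, 2 • x = 0 → D.e x x = 0
  e_nd : ∀ x : N, 2 • x = 0 → (∀ y : N, 2 • y = 0 → D.e x y = 0) → x = 0
  sa : ∀ (σ : G) (x y : N), 4 • x = 0 → 4 • y = 0 →
    D.e (σ • x - x) (2 • y) = D.e (2 • x) (σ • y - y)
  unr : ∀ v, v ∉ D.S → ∀ x : N, D.tau v • x = x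
  chc : ∀ v, v ≠ D.inf → IsCh (D.ch v)
  ch_tau : ∀ v, v ≠ D.inf → D.ch v (D.tau v) = 1
  ch_tau' : ∀ v w, v ≠ D.inf → w ≠ D.inf → v ≠ w → D.ch v (D.tau w) = 0
  ch_phi : ∀ v, v ≠ D.inf → D.ch v (D.phi v) = 0
  ch_inf : ∀ v, v ≠ D.inf → D.ch v (D.phi D.inf) = 0
  cstc : IsCh D.cst
  cst_tau : ∀ v, D.cst (D.tau v) = 0
  cst_inf : D.cst (D.phi D.inf) = 1
  ch0c : IsCh D.ch0
  ch0_tau : ∀ v, v ∉ D.S → D.ch0 (D.tau v) = 0
  fidx : ∀ U : Subgroup G, IsOpen (U : Set G) → U.index ≠ 0
  fin : ∀ U : Subgroup G, IsOpen (U : Set G) → {v | D.tau v ∉ U}.Finite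
  uni : ∀ f : G → ZMod 2, IsCh f → (∀ v, f (D.tau v) = 0) → f (D.phi D.inf) = 0 → ∀ σ, f σ = 0
  rcp : ∀ f g : G → ZMod 2, IsCh f → IsCh g →
    ∑ᶠ v, (f (D.tau v) * g (D.phi v) + f (D.phi v) * g (D.tau v)) = 0

/-- The axioms on `H²(G, F₂)`: reciprocity and the Hasse principle. -/
structure Ax2 (D : Dat G N P) : Prop where
  rec2 : ∀ z : G → G → ZMod 2, IsC2 (fun _ r => r) z → ∑ᶠ v, D.iv z v = 0
  has2 : ∀ z : G → G → ZMod 2, IsC2 (fun _ r => r) z → (∀ v, D.iv z v = 0) →
    ∃ l : G → ZMod 2, IsLocallyConstant l ∧ ∀ σ τ, z σ τ = l σ + l τ - l (σ * τ)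

/-- The axioms on the Weil pairings `E m` on `N[2^m]` with values in `R = μ_(2^∞)`, and the
reciprocity law for `H²(G, R)`. -/
structure Ax3 (D : Dat G N P) {R : Type} [AddCommGroup R] [DistribMulAction G R]
    (E : ℕ → N → N → R) (hf : R) : Prop where
  actR : ∀ r : R, IsLocallyConstant fun σ : G => σ • r
  tauR : ∀ v (r : R), D.tau v • r = r
  phiR : ∀ v (r : R), D.phi v • r = D.nq v • r
  hf0 : hf ≠ 0
  hf2 : 2 • hf = 0
  E_add : ∀ m (a b c : N), 2 ^ m • a = 0 → 2 ^ m • b = 0 → 2 ^ m • c = 0 →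
    E m (a + b) c = E m a c + E m b c
  E_alt : ∀ m (a : N), 2 ^ m • a = 0 → E m a a = 0
  E_anti : ∀ m (a b : N), 2 ^ m • a = 0 → 2 ^ m • b = 0 → E m a b = - E m b a
  E_eqv : ∀ m (σ : G) (a b : N), 2 ^ m • a = 0 → 2 ^ m • b = 0 →
    E m (σ • a) (σ • b) = σ • E m a b
  E_two : ∀ m (a b : N), 1 ≤ m → 2 ^ (m + 1) • a = 0 → 2 ^ m • b = 0 →
    E (m + 1) a b = E m (2 • a) b
  E_one : ∀ a b : N, 2 • a = 0 → 2 • b = 0 → E 1 a b = if D.e a b = 0 then 0 else hf
  recR : ∀ z : G → G → R, IsC2 (fun g r => g • r) z → (∀ v, 2 • D.iv z v = 0) →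
    ∑ᶠ v, D.iv z v = 0

variable (D : Dat G N P) {ι : Type} [Fintype ι] [DecidableEq ι]

/-- The index set of the ramified places of a configuration. -/
abbrev Dat.J (D : Dat G N P) (ι : Type) : Type := {v // v ∈ D.S} ⊕ ι

/-- The ramified places of a configuration. -/
def Dat.pl (x : ι → P) : D.J ι → P := Sum.elim (fun s => s.1) x

/-- The character of a configuration. -/
def Dat.chi (x : ι → P) (σ : G) : ZMod 2 := D.ch0 σ + ∑ i, D.ch (x i) σ

/-- Admissible (tame) configurations. -/
structure Dat.Ok (x : ι → P) : Prop where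
  inj : Function.Injective x
  nS : ∀ i, x i ∉ D.S
  tame : ∀ s ∈ D.S, ∀ Q : N, tw (D.chi x) (D.tau s) Q = Q → tw (D.chi x) (D.phi s) Q = Q →
    2 • Q = 0

/-- `ψ` is a locally constant cocycle for the configuration `x`, of bounded order, unramified
outside the places of `x`. -/
structure Dat.IsU (x : ι → P) (ψ : G → N) : Prop where
  lc : IsLocallyConstant ψ
  co : IsCo (D.chi x) ψ
  bd : ∃ k : ℕ, ∀ σ, 2 ^ k • ψ σ = 0
  ur : ∀ v, v ∉ Set.range (D.pl x) → ψ (D.tau v) = 0

/-- `ψ` is the coboundary of `Q` on the decomposition group of `v`. -/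
def Dat.Lo (x : ι → P) (v : P) (Q : N) (ψ : G → N) : Prop :=
  ψ (D.tau v) = tw (D.chi x) (D.tau v) Q - Q ∧ ψ (D.phi v) = tw (D.chi x) (D.phi v) Q - Q

/-- `ψ` is a Selmer cocycle of type `t`. -/
structure Dat.IsZ (x : ι → P) (t : D.J ι → N) (ψ : G → N) : Prop where
  u : D.IsU x ψ
  lo : ∀ j, ∃ Q : N, 2 • Q = t j ∧ D.Lo x (D.pl x j) Q ψ

/-- `η` is a half of the Selmer cocycle of type `ξ`. -/
structure Dat.IsH (x : ι → P) (ξ : D.J ι → N) (η : G → N) : Prop where
  u : D.IsU x η
  hf : D.IsZ x ξ fun σ => 2 • η σ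

/-- The vertex `w` of the cube with the opposite vertices `x`, `y`. -/
def mx (x y : ι → P) (w : Finset ι) : ι → P := fun i => if i ∈ w then y i else x i

/-- The alternating sum over the vertices of a cube. -/
def alt {A : Type} [AddCommGroup A] (x y : ι → P) (U : Finset ι) (f : (ι → P) → A) : A :=
  ∑ w ∈ U.powerset, (-1 : ℤ) ^ #w • f (mx x y w)

/-- Good cubes: all vertices are admissible and the character `ch (x i) + ch (y i)` is trivial on
the decomposition groups of all places of the cube except `x i` and `y i`. -/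
structure Dat.Gd (x y : ι → P) (U : Finset ι) : Prop where
  ok : ∀ w ⊆ U, D.Ok (mx x y w)
  ne : ∀ i ∈ U, x i ≠ y i
  sS : ∀ i ∈ U, ∀ s ∈ D.S, D.ch (x i) (D.tau s) = D.ch (y i) (D.tau s) ∧
    D.ch (x i) (D.phi s) = D.ch (y i) (D.phi s)
  sx : ∀ i ∈ U, ∀ j, j ≠ i → D.ch (x i) (D.phi (x j)) = D.ch (y i) (D.phi (x j))
  sy : ∀ i ∈ U, ∀ j ∈ U, j ≠ i → D.ch (x i) (D.phi (y j)) = D.ch (y i) (D.phi (y j))

end

end Pool.Agent.MP72S
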