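import Pool.Agent.Lib.MP_72e2e6_nt.Sm.Base

/-!
# MP_72e2e6_nt, `Sm`: basic lemmas and further definitions
-/

namespace Pool.Agent.MP72S

open Finset

section algebra

variable {G N : Type} [Group G] [AddCommGroup N] [DistribMulAction G N]

theorem sg_zero' (x : N) : sg 0 x = x := if_pos rfl

theorem sg_one' (x : N) : sg 1 x = -x := if_neg one_ne_zero

theorem sg_add (a : ZMod 2) (x y : N) : sg a (x + y) = sg a x + sg a y := by
  unfold sg
  split_ifs
  · rfl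
  · rw [neg_add]

theorem sg_neg (a : ZMod 2) (x : N) : sg a (-x) = -sg a x := by
  unfold sg
  split_ifs <;> rfl

theorem sg_sub (a : ZMod 2) (x y : N) : sg a (x - y) = sg a x - sg a y := by
  rw [sub_eq_add_neg, sg_add, sg_neg, ← sub_eq_add_neg]

theorem sg_map_zero (a : ZMod 2) : sg a (0 : N) = 0 := by
  unfold sg
  split_ifs <;> simp

theorem sg_nsmul (a : ZMod 2) (n : ℕ) (x : N) : sg a (n • x) = n • sg a x := by
  unfold sg
  split_ifs
  · rfl
  · rw [smul_neg]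

theorem sg_zsmul (a : ZMod 2) (n : ℤ) (x : N) : sg a (n • x) = n • sg a x := by
  unfold sg
  split_ifs
  · rfl
  · rw [smul_neg]

theorem zmod2 (a : ZMod 2) : a = 0 ∨ a = 1 := by
  revert a
  decide

theorem sg_sg (a b : ZMod 2) (x : N) : sg a (sg b x) = sg (a + b) x := by
  rcases zmod2 a with rfl | rfl <;> rcases zmod2 b with rfl | rfl
  · simp [sg_zero']
  · simp [sg_zero']
  · simp [sg_zero']
  · rw [sg_one', sg_one', neg_neg, show (1 : ZMod 2) + 1 = 0 from rfl, sg_zero']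

theorem sg_two (a : ZMod 2) {x : N} (h : 2 • x = 0) : sg a x = x := by
  unfold sg
  split_ifs
  · rfl
  · rw [two_nsmul] at h
    exact neg_eq_of_add_eq_zero_left h

theorem sg_smul (a : ZMod 2) (σ : G) (x : N) : σ • sg a x = sg a (σ • x) := by
  unfold sg
  split_ifs
  · rfl
  · rw [smul_neg]

variable (χ : G → ZMod 2) (σ τ : G)

theorem tw_add (x y : N) : tw χ σ (x + y) = tw χ σ x + tw χ σ y := by
  rw [tw, smul_add, sg_add, tw, tw]

theorem tw_neg (x : N) : tw χ σ (-x) = -tw χ σ x := by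
  rw [tw, smul_neg, sg_neg, tw]

theorem tw_sub (x y : N) : tw χ σ (x - y) = tw χ σ x - tw χ σ y := by
  rw [sub_eq_add_neg, tw_add, tw_neg, ← sub_eq_add_neg]

theorem tw_map_zero : tw χ σ (0 : N) = 0 := by
  rw [tw, smul_zero, sg_map_zero]

theorem tw_nsmul (n : ℕ) (x : N) : tw χ σ (n • x) = n • tw χ σ x := by
  rw [tw, smul_comm σ n x, sg_nsmul, tw]

theorem tw_zsmul (n : ℤ) (x : N) : tw χ σ (n • x) = n • tw χ σ x := by
  rw [tw, smul_comm σ n x, sg_zsmul, tw]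

theorem tw_sum {ι : Type} (s : Finset ι) (f : ι → N) :
    tw χ σ (∑ i ∈ s, f i) = ∑ i ∈ s, tw χ σ (f i) := by
  classical
  induction s using Finset.induction_on with
  | empty => simp [tw_map_zero]
  | insert i s h ih => rw [sum_insert h, sum_insert h, tw_add, ih]

variable {χ σ τ}

theorem tw_mul (h : χ (σ * τ) = χ σ + χ τ) (x : N) : tw χ (σ * τ) x = tw χ σ (tw χ τ x) := by
  rw [tw, tw, tw, h, sg_smul, sg_sg, mul_smul]

theorem tw_two (htri : ∀ (σ : G) (x : N), 2 • x = 0 → σ • x = x) {x : N} (h : 2 • x = 0) :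
    tw χ σ x = x := by
  rw [tw, htri σ x h, sg_two _ h]

theorem IsCo.add {ψ ψ' : G → N} (h : IsCo χ ψ) (h' : IsCo χ ψ') :
    IsCo χ fun σ => ψ σ + ψ' σ := by
  intro σ τ
  simp only [h σ τ, h' σ τ, tw_add]
  abel

theorem IsCo.neg {ψ : G → N} (h : IsCo χ ψ) : IsCo χ fun σ => -ψ σ := by
  intro σ τ
  simp only [h σ τ, tw_neg]
  abel

theorem IsCo.nsmul {ψ : G → N} (h : IsCo χ ψ) (n : ℕ) : IsCo χ fun σ => n • ψ σ := by
  intro σ τ
  simp only [h σ τ, tw_nsmul, smul_add]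

end algebra

section

variable {G N P : Type} [Group G] [TopologicalSpace G] [AddCommGroup N] [DistribMulAction G N]
  {D : Dat G N P} {ι : Type} [Fintype ι]

theorem Dat.IsU.add {x : ι → P} {ψ ψ' : G → N} (h : D.IsU x ψ) (h' : D.IsU x ψ') :
    D.IsU x fun σ => ψ σ + ψ' σ := by
  obtain ⟨k, hk⟩ := h.bd
  obtain ⟨k', hk'⟩ := h'.bd
  refine ⟨h.lc.comp₂ h'.lc (fun a b => a + b), h.co.add h'.co, ⟨k + k', fun σ => ?_⟩, fun v hv => ?_⟩
  · rw [smul_add, pow_add, mul_comm, mul_smul, hk σ, smul_zero, mul_comm, mul_smul, hk' σ,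
      smul_zero, add_zero]
  · rw [h.ur v hv, h'.ur v hv, add_zero]

theorem Dat.IsU.neg {x : ι → P} {ψ : G → N} (h : D.IsU x ψ) : D.IsU x fun σ => -ψ σ := by
  obtain ⟨k, hk⟩ := h.bd
  refine ⟨h.lc.comp (fun a => -a), h.co.neg, ⟨k, fun σ => ?_⟩, fun v hv => ?_⟩
  · rw [smul_neg, hk σ, neg_zero]
  · rw [h.ur v hv, neg_zero]

theorem Dat.Lo.add {x : ι → P} {v : P} {Q Q' : N} {ψ ψ' : G → N} (h : D.Lo x v Q ψ)
    (h' : D.Lo x v Q' ψ') : D.Lo x v (Q + Q') fun σ => ψ σ + ψ' σ := by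
  constructor
  · simp only [h.1, h'.1, tw_add]
    abel
  · simp only [h.2, h'.2, tw_add]
    abel

theorem Dat.Lo.neg {x : ι → P} {v : P} {Q : N} {ψ : G → N} (h : D.Lo x v Q ψ) :
    D.Lo x v (-Q) fun σ => -ψ σ := by
  constructor
  · simp only [h.1, tw_neg]
    abel
  · simp only [h.2, tw_neg]
    abel

theorem Dat.IsZ.add {x : ι → P} {t t' : D.J ι → N} {ψ ψ' : G → N} (h : D.IsZ x t ψ)
    (h' : D.IsZ x t' ψ') : D.IsZ x (t + t') fun σ => ψ σ + ψ' σ := by
  refine ⟨h.u.add h'.u, fun j => ?_⟩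
  obtain ⟨Q, hQ, h1⟩ := h.lo j
  obtain ⟨Q', hQ', h1'⟩ := h'.lo j
  exact ⟨Q + Q', by rw [smul_add, hQ, hQ', Pi.add_apply], h1.add h1'⟩

theorem Dat.IsZ.neg {x : ι → P} {t : D.J ι → N} {ψ : G → N} (h : D.IsZ x t ψ) :
    D.IsZ x (-t) fun σ => -ψ σ := by
  refine ⟨h.u.neg, fun j => ?_⟩
  obtain ⟨Q, hQ, h1⟩ := h.lo j
  exact ⟨-Q, by rw [smul_neg, hQ, Pi.neg_apply], h1.neg⟩

theorem Dat.isZ_zero (x : ι → P) : D.IsZ x 0 (fun _ : G => (0 : N)) := by
  refine ⟨⟨IsLocallyConstant.const 0, fun σ τ => ?_, ⟨0, fun σ => smul_zero _⟩, fun v _ => rfl⟩,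
    fun j => ⟨0, by simp, ?_, ?_⟩⟩
  · rw [tw_map_zero, add_zero]
  · rw [tw_map_zero, sub_zero]
  · rw [tw_map_zero, sub_zero]

variable (D)

/-- The group of the types of the Selmer cocycles. -/
def Dat.Z (x : ι → P) : AddSubgroup (D.J ι → N) where
  carrier := {t | ∃ ψ, D.IsZ x t ψ}
  zero_mem' := ⟨_, D.isZ_zero x⟩
  add_mem' := fun ⟨_, h⟩ ⟨_, h'⟩ => ⟨_, h.add h'⟩
  neg_mem' := fun ⟨_, h⟩ => ⟨_, h.neg⟩

variable {D}

theorem Dat.mem_Z {x : ι → P} {t : D.J ι → N} : t ∈ D.Z x ↔ ∃ ψ, D.IsZ x t ψ := Iff.rfl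

variable (D)

open Classical in
/-- The Selmer cocycle of type `t`. -/
noncomputable def Dat.coc (x : ι → P) (t : D.J ι → N) : G → N :=
  if h : ∃ ψ, D.IsZ x t ψ then h.choose else 0

variable {D}

theorem Dat.coc_spec {x : ι → P} {t : D.J ι → N} (h : t ∈ D.Z x) : D.IsZ x t (D.coc x t) := by
  have h' : ∃ ψ, D.IsZ x t ψ := h
  rw [Dat.coc, dif_pos h']
  exact h'.choose_spec

end

/-- The elements killed by `2 ^ k`. -/
def tor (A : Type) [AddCommGroup A] (k : ℕ) : AddSubgroup A where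
  carrier := {t | 2 ^ k • t = 0}
  zero_mem' := smul_zero _
  add_mem' := fun {a b} (ha : 2 ^ k • a = 0) (hb : 2 ^ k • b = 0) => by
    change 2 ^ k • (a + b) = 0
    rw [smul_add, ha, hb, add_zero]
  neg_mem' := fun {a} (ha : 2 ^ k • a = 0) => by
    change 2 ^ k • (-a) = 0
    rw [smul_neg, ha, neg_zero]

theorem mem_tor {A : Type} [AddCommGroup A] {k : ℕ} {t : A} : t ∈ tor A k ↔ 2 ^ k • t = 0 :=
  Iff.rfl

/-- The multiplication by `n`. -/
def mulN (A : Type) [AddCommGroup A] (n : ℕ) : A →+ A where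
  toFun t := n • t
  map_zero' := smul_zero _
  map_add' := smul_add _

section

variable {G N P : Type} [Group G] [TopologicalSpace G] [AddCommGroup N] [DistribMulAction G N]
  (D : Dat G N P) {ι : Type} [Fintype ι]

/-- The diagonal types in `V`. -/
def Dat.T (ι : Type) : AddSubgroup (D.J ι → N) where
  carrier := {t | ∃ s : N, 2 • s = 0 ∧ t = fun _ => s}
  zero_mem' := ⟨0, smul_zero _, rfl⟩
  add_mem' := by
    rintro a b ⟨s, hs, rfl⟩ ⟨s', hs', rfl⟩
    exact ⟨s + s', by rw [smul_add, hs, hs', add_zero], rfl⟩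
  neg_mem' := by
    rintro a ⟨s, hs, rfl⟩
    exact ⟨-s, by rw [smul_neg, hs, neg_zero], rfl⟩

/-- `2 ^ (k - 1) Z_k`, the types of the elements of the `2`-Selmer group which lift to level `k`
(including the torsion part). -/
def Dat.Dk (x : ι → P) (k : ℕ) : AddSubgroup (D.J ι → N) :=
  (D.Z x ⊓ tor _ k).map (mulN _ (2 ^ (k - 1)))

open Classical in
/-- A quarter of an element. -/
noncomputable def quar {N : Type} [AddCommGroup N] (x : N) : N :=
  if h : ∃ y : N, 4 • y = x then h.choose else 0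

open Classical in
/-- A half of an element. -/
noncomputable def half {N : Type} [AddCommGroup N] (x : N) : N :=
  if x = 0 then 0 else if h : ∃ y : N, 2 • y = x then h.choose else 0

/-- The defect of the half `η` at `j`. -/
noncomputable def Dat.df (x : ι → P) (ξ : D.J ι → N) (η : G → N) (j : D.J ι) (g : G) : N :=
  η g - (tw (D.chi x) g (quar (ξ j)) - quar (ξ j))

/-- The local pairing of two functions at `v`. -/
def Dat.lp (a b : G → N) (v : P) : ZMod 2 :=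
  D.e (a (D.tau v)) (b (D.phi v)) + D.e (a (D.phi v)) (b (D.tau v))

/-- The obstruction functional of the half `η` (of the cocycle of type `ξ`). -/
noncomputable def Dat.ob (x : ι → P) (ξ : D.J ι → N) (η : G → N) (ν : D.J ι → N) : ZMod 2 :=
  ∑ j, D.lp (D.df x ξ η j) (D.coc x ν) (D.pl x j)

/-- The set of the obstruction functionals of level `k` (extended by zero outside `Dk x 1`). -/
def Dat.O (x : ι → P) (k : ℕ) : Set ((D.J ι → N) → ZMod 2) :=
  {g | ∃ ξ η, 2 ^ (k - 1) • ξ = 0 ∧ D.IsH x ξ η ∧ (∀ ν ∈ D.Dk x 1, g ν = D.ob x ξ η ν) ∧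
    ∀ ν, ν ∉ D.Dk x 1 → g ν = 0}

end

end Pool.Agent.MP72S
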